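import Mathlib

set_option autoImplicit false
set_option linter.unusedSectionVars false

open Polynomial CategoryTheory

namespace Pool.Agent.H158R3

section Exact

variable {R : Type} [CommRing R]
variable (M : Type) [AddCommGroup M] [Module R[X] M] [Module R M] [IsScalarTower R R[X] M]

omit [Module R M] [IsScalarTower R R[X] M] in
lemma sum_single_aux (n : ℕ) (m : M) :
    ((Finsupp.single n m).sum fun i m => (X ^ i : R[X]) • m) = (X ^ n : R[X]) • m :=
  Finsupp.sum_single_index (h := fun i m => (X ^ i : R[X]) • m) (smul_zero _)

/-- The evaluation map `M[X] → M` for an `R[X]`-module `M`. -/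
noncomputable def epsMap : PolynomialModule R M →ₗ[R[X]] M where
  toFun p := p.coeff.sum fun i m => (X ^ i : R[X]) • m
  map_add' p q := by
    rw [PolynomialModule.coeff_add]
    exact Finsupp.sum_add_index' (fun _ => smul_zero _) (fun _ _ _ => smul_add _ _ _)
  map_smul' f p := by
    simp only [RingHom.id_apply]
    induction p using PolynomialModule.induction_linear with
    | zero => simp
    | add p q hp hq =>
      rw [smul_add, PolynomialModule.coeff_add, PolynomialModule.coeff_add,
        Finsupp.sum_add_index' (fun _ => smul_zero _) (fun _ _ _ => smul_add _ _ _),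
        Finsupp.sum_add_index' (fun _ => smul_zero _) (fun _ _ _ => smul_add _ _ _), hp, hq,
        smul_add]
    | single n m =>
      induction f using Polynomial.induction_on' with
      | add f g hf hg =>
        rw [add_smul, PolynomialModule.coeff_add,
          Finsupp.sum_add_index' (fun _ => smul_zero _) (fun _ _ _ => smul_add _ _ _), hf, hg,
          add_smul]
      | monomial i r =>
        rw [PolynomialModule.monomial_smul_single, PolynomialModule.coeff_single,
          PolynomialModule.coeff_single, sum_single_aux, sum_single_aux,
          ← C_mul_X_pow_eq_monomial, pow_add]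
        rw [smul_smul, ← algebraMap_smul R[X] r m, smul_smul]
        congr 1
        simp only [algebraMap_eq]
        ring

@[simp] lemma epsMap_single (n : ℕ) (m : M) :
    epsMap (R := R) M (PolynomialModule.single R n m) = (X ^ n : R[X]) • m :=
  sum_single_aux M n m

lemma epsMap_surjective : Function.Surjective (epsMap (R := R) M) := fun m =>
  ⟨PolynomialModule.single R 0 m, by simp⟩

/-- multiplication by `X` on `M` as an `R`-linear map -/
noncomputable def xEnd : M →ₗ[R] M where
  toFun m := (X : R[X]) • m
  map_add' := smul_add _
  map_smul' r m := by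
    simp only [RingHom.id_apply]
    rw [← algebraMap_smul R[X] r m, ← algebraMap_smul R[X] r ((X : R[X]) • m), smul_smul,
      smul_smul, mul_comm]

/-- The map `M[X] → M[X]`, `n ↦ X n - (X acting on the coefficients)`. -/
noncomputable def delMap : PolynomialModule R M →ₗ[R[X]] PolynomialModule R M where
  toFun p := (X : R[X]) • p - PolynomialModule.map R (xEnd M) p
  map_add' p q := by
    rw [smul_add, map_add]; abel
  map_smul' f p := by
    simp only [RingHom.id_apply]
    rw [PolynomialModule.map_smul, smul_sub, smul_smul, smul_smul, mul_comm]
    simp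

lemma X_smul_coeff_zero (p : PolynomialModule R M) : ((X : R[X]) • p).coeff 0 = 0 := by
  rw [← monomial_one_one_eq_X, PolynomialModule.monomial_smul_apply]; simp

lemma X_smul_coeff_succ (p : PolynomialModule R M) (n : ℕ) :
    ((X : R[X]) • p).coeff (n + 1) = p.coeff n := by
  rw [← monomial_one_one_eq_X, PolynomialModule.monomial_smul_apply]; simp

lemma map_coeff' {N : Type} [AddCommGroup N] [Module R N] (f : M →ₗ[R] N)
    (p : PolynomialModule R M) (n : ℕ) :
    (PolynomialModule.map R f p).coeff n = f (p.coeff n) := by
  rfl

lemma delMap_coeff_zero (p : PolynomialModule R M) :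
    (delMap (R := R) M p).coeff 0 = - ((X : R[X]) • p.coeff 0) := by
  have h : (delMap (R := R) M p).coeff 0 = ((X : R[X]) • p).coeff 0 -
      (PolynomialModule.map R (xEnd M) p).coeff 0 := rfl
  rw [h, X_smul_coeff_zero, map_coeff', zero_sub]
  rfl

lemma delMap_coeff_succ (p : PolynomialModule R M) (n : ℕ) :
    (delMap (R := R) M p).coeff (n + 1) = p.coeff n - ((X : R[X]) • p.coeff (n + 1)) := by
  have h : (delMap (R := R) M p).coeff (n + 1) = ((X : R[X]) • p).coeff (n + 1) -
      (PolynomialModule.map R (xEnd M) p).coeff (n + 1) := rfl
  rw [h, X_smul_coeff_succ, map_coeff']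
  rfl

lemma delMap_injective : Function.Injective (delMap (R := R) M) := by
  rw [injective_iff_map_eq_zero]
  intro p hp
  by_contra hne
  have hs : p.coeff ≠ 0 := by simpa using hne
  have hsupp : p.coeff.support.Nonempty := Finsupp.support_nonempty_iff.mpr hs
  set n := p.coeff.support.max' hsupp with hn
  have h1 : p.coeff n ≠ 0 := Finsupp.mem_support_iff.mp (Finset.max'_mem _ hsupp)
  have h2 : p.coeff (n + 1) = 0 := by
    by_contra h
    have := Finset.le_max' _ _ (Finsupp.mem_support_iff.mpr h)
    omega
  have h3 := delMap_coeff_succ M p n
  rw [hp, h2, smul_zero, sub_zero] at h3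
  exact h1 h3.symm

lemma epsMap_delMap (p : PolynomialModule R M) : epsMap (R := R) M (delMap M p) = 0 := by
  induction p using PolynomialModule.induction_linear with
  | zero => simp
  | add p q hp hq => rw [map_add, map_add, hp, hq, add_zero]
  | single n m =>
    have h : delMap (R := R) M (PolynomialModule.single R n m) =
      (X : R[X]) • PolynomialModule.single R n m -
        PolynomialModule.map R (xEnd M) (PolynomialModule.single R n m) := rfl
    rw [h, map_sub, _root_.map_smul, PolynomialModule.map_single, epsMap_single, epsMap_single]
    show (X : R[X]) • (X ^ n : R[X]) • m - (X ^ n : R[X]) • ((X : R[X]) • m) = 0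
    rw [smul_comm, sub_self]

lemma single_sub_mem_range (n : ℕ) (m : M) :
    PolynomialModule.single R n m - PolynomialModule.single R 0 ((X ^ n : R[X]) • m) ∈
      LinearMap.range (delMap (R := R) M) := by
  induction n generalizing m with
  | zero => simp
  | succ n ih =>
    have h : delMap (R := R) M (PolynomialModule.single R n m) =
      PolynomialModule.single R (n + 1) m - PolynomialModule.single R n ((X : R[X]) • m) := by
      show (X : R[X]) • PolynomialModule.single R n m -
        PolynomialModule.map R (xEnd M) (PolynomialModule.single R n m) = _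
      rw [PolynomialModule.map_single, ← monomial_one_one_eq_X,
        PolynomialModule.monomial_smul_single, one_smul, add_comm 1 n]
      rfl
    have h2 := ih ((X : R[X]) • m)
    have h3 : PolynomialModule.single R (n + 1) m - PolynomialModule.single R n ((X : R[X]) • m) ∈
      LinearMap.range (delMap (R := R) M) := h ▸ LinearMap.mem_range_self _ _
    have h4 := Submodule.add_mem _ h3 h2
    rw [smul_smul, ← pow_succ] at h4
    simpa using h4

lemma sub_mem_range (p : PolynomialModule R M) :
    p - PolynomialModule.single R 0 (epsMap (R := R) M p) ∈ LinearMap.range (delMap (R := R) M) := by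
  induction p using PolynomialModule.induction_linear with
  | zero => simp
  | add p q hp hq =>
    have h := Submodule.add_mem _ hp hq
    rw [map_add, PolynomialModule.single_add]
    convert h using 1
    abel
  | single n m => rw [epsMap_single]; exact single_sub_mem_range M n m

lemma exact_del_eps : Function.Exact (delMap (R := R) M) (epsMap (R := R) M) := by
  intro p
  constructor
  · intro hp
    have h := sub_mem_range M p
    rw [hp, PolynomialModule.single_zero, sub_zero] at h
    exact h
  · rintro ⟨q, rfl⟩
    exact epsMap_delMap M q

end Exact

section Map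

variable {R : Type} [CommRing R]
variable {M N : Type} [AddCommGroup M] [AddCommGroup N] [Module R M] [Module R N]

/-- `M[X] → N[X]` as an `R[X]`-linear map. -/
noncomputable def pmap (f : M →ₗ[R] N) : PolynomialModule R M →ₗ[R[X]] PolynomialModule R N where
  toFun p := PolynomialModule.map R f p
  map_add' p q := map_add _ p q
  map_smul' r p := by rw [PolynomialModule.map_smul]; simp

lemma pmap_coeff (f : M →ₗ[R] N) (p : PolynomialModule R M) (n : ℕ) :
    (pmap f p).coeff n = f (p.coeff n) := rfl

lemma pmap_injective {f : M →ₗ[R] N} (hf : Function.Injective f) :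
    Function.Injective (pmap f) := by
  intro p q h
  ext n
  apply hf
  rw [← pmap_coeff, ← pmap_coeff, h]

lemma pmap_surjective {f : M →ₗ[R] N} (hf : Function.Surjective f) :
    Function.Surjective (pmap f) := by
  intro q
  induction q using PolynomialModule.induction_linear with
  | zero => exact ⟨0, map_zero _⟩
  | add p q hp hq =>
    obtain ⟨a, rfl⟩ := hp
    obtain ⟨b, rfl⟩ := hq
    exact ⟨a + b, map_add _ _ _⟩
  | single n m =>
    obtain ⟨a, rfl⟩ := hf m
    exact ⟨PolynomialModule.single R n a, PolynomialModule.map_single R f n a⟩

lemma pmap_exact {P : Type} [AddCommGroup P] [Module R P] {f : M →ₗ[R] N} {g : N →ₗ[R] P}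
    (h : Function.Exact f g) : Function.Exact (pmap f) (pmap g) := by
  classical
  intro q
  constructor
  · intro hq
    have hk : ∀ n, g (q.coeff n) = 0 := fun n => by rw [← pmap_coeff, hq]; rfl
    have : ∀ q : PolynomialModule R N, (∀ n, g (q.coeff n) = 0) → q ∈ Set.range (pmap f) := by
      intro q hq
      choose a ha using fun n => (h (q.coeff n)).1 (hq n)
      refine ⟨PolynomialModule.ofCoeff R
        (Finsupp.onFinset q.coeff.support (fun n => if q.coeff n = 0 then 0 else a n) ?_), ?_⟩
      · intro n hn
        rw [Finsupp.mem_support_iff]
        intro h0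
        simp [h0] at hn
      · ext n
        rw [pmap_coeff]
        show f (if q.coeff n = 0 then 0 else a n) = _
        split_ifs with h0
        · rw [map_zero, h0]
        · exact ha n
    exact this q hk
  · rintro ⟨p, rfl⟩
    ext n
    rw [pmap_coeff, pmap_coeff]
    exact h.apply_apply_eq_zero _

end Map

end Pool.Agent.H158R3
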