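import Mathlib
import Pool.Agent.H158R3.PolyMod

set_option autoImplicit false
set_option linter.unusedSectionVars false

open Polynomial CategoryTheory

namespace Pool.Agent.H158R3

section ses

variable {R : Type} [CommRing R]

/-- projective dimension less than `n`, for an honest module -/
abbrev PdLT (R : Type) [CommRing R] (M : Type) [AddCommGroup M] [Module R M] (n : ℕ) : Prop :=
  HasProjectiveDimensionLT (ModuleCat.of R M) n

variable {A B C : Type} [AddCommGroup A] [AddCommGroup B] [AddCommGroup C]
    [Module R A] [Module R B] [Module R C] (f : A →ₗ[R] B) (g : B →ₗ[R] C)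
    (hf : Function.Injective f) (hg : Function.Surjective g) (h : Function.Exact f g)

/-- Short complex of modules from linear maps. -/
def sc : ShortComplex (ModuleCat.{0} R) :=
  ShortComplex.mk (ModuleCat.ofHom f) (ModuleCat.ofHom g) (by
    ext x
    exact h.apply_apply_eq_zero x)

include hf hg in
lemma sc_shortExact : (sc f g h).ShortExact := by
  refine ShortComplex.ShortExact.mk' ?_ ?_ ?_
  · rw [ShortComplex.moduleCat_exact_iff]
    intro x hx
    exact (h x).1 hx
  · exact (ModuleCat.mono_iff_injective _).2 hf
  · exact (ModuleCat.epi_iff_surjective _).2 hg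

include hf hg h

lemma pdLT_mid {n : ℕ} (h1 : PdLT R A n) (h3 : PdLT R C n) : PdLT R B n :=
  (sc_shortExact f g hf hg h).hasProjectiveDimensionLT_X₂ n h1 h3

lemma pdLT_right {n : ℕ} (h1 : PdLT R A n) (h2 : PdLT R B (n + 1)) : PdLT R C (n + 1) :=
  (sc_shortExact f g hf hg h).hasProjectiveDimensionLT_X₃ n h1 h2

lemma pdLT_left {n : ℕ} (h2 : PdLT R B n) (h3 : PdLT R C (n + 1)) : PdLT R A n :=
  (sc_shortExact f g hf hg h).hasProjectiveDimensionLT_X₁ n h2 h3

end ses

section basic

variable {R : Type} [CommRing R] {M N : Type} [AddCommGroup M] [AddCommGroup N]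
  [Module R M] [Module R N]

lemma pdLT_mono {m n : ℕ} (hmn : m ≤ n) (h : PdLT R M m) : PdLT R M n :=
  hasProjectiveDimensionLT_of_ge _ m n hmn

lemma pdLT_equiv (e : M ≃ₗ[R] N) {n : ℕ} (h : PdLT R M n) : PdLT R N n :=
  hasProjectiveDimensionLT_of_iso e.toModuleIso n

lemma pdLT_one_of_projective (h : Module.Projective R M) : PdLT R M 1 := by
  have : Projective (ModuleCat.of R M) := (IsProjective.iff_projective M).1 h
  infer_instance

lemma projective_of_pdLT_one (h : PdLT R M 1) : Module.Projective R M := by
  rw [IsProjective.iff_projective]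
  exact projective_iff_hasProjectiveDimensionLT_one.2 h

lemma pdLT_zero_iff : PdLT R M 0 ↔ Subsingleton M :=
  (hasProjectiveDimensionLT_zero_iff_isZero (ModuleCat.of R M)).trans
    ModuleCat.isZero_iff_subsingleton

lemma projective_polynomialModule (M : Type) [AddCommGroup M] [Module R M]
    [Module.Projective R M] : Module.Projective R[X] (PolynomialModule R M) :=
  Module.Projective.of_equiv (PolynomialModule.polynomialTensorProductLEquivPolynomialModule R M)

/-- Base change to the polynomial ring does not increase projective dimension. -/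
lemma pdLT_polynomialModule {n : ℕ} : ∀ (M : Type) [AddCommGroup M] [Module R M],
    PdLT R M n → PdLT R[X] (PolynomialModule R M) n := by
  induction n with
  | zero =>
    intro M _ _ h
    rw [pdLT_zero_iff] at h ⊢
    infer_instance
  | succ n ih =>
    intro M _ _ h
    match n with
    | 0 =>
      have hp := projective_of_pdLT_one h
      exact pdLT_one_of_projective (projective_polynomialModule M)
    | n + 1 =>
      -- free presentation
      let π : (M →₀ R) →ₗ[R] M := Finsupp.linearCombination R id
      have hπ : Function.Surjective π := Finsupp.linearCombination_id_surjective R M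
      have hK : PdLT R (LinearMap.ker π) (n + 1) :=
        pdLT_left (LinearMap.ker π).subtype π (Submodule.injective_subtype _) hπ
          (LinearMap.exact_subtype_ker_map π)
          (pdLT_mono (by omega) (pdLT_one_of_projective inferInstance)) h
      have h1 := ih _ hK
      have h2 : PdLT R[X] (PolynomialModule R (M →₀ R)) (n + 2) :=
        pdLT_mono (by omega) (pdLT_one_of_projective (projective_polynomialModule _))
      exact pdLT_right (pmap (LinearMap.ker π).subtype) (pmap π)
        (pmap_injective (Submodule.injective_subtype _)) (pmap_surjective hπ)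
        (pmap_exact (LinearMap.exact_subtype_ker_map π)) h1 h2

/-- An `R[X]`-module has projective dimension at most one more than over `R`. -/
lemma pdLT_polynomial {n : ℕ} (M : Type) [AddCommGroup M] [Module R[X] M] [Module R M]
    [IsScalarTower R R[X] M] (h : PdLT R M n) : PdLT R[X] M (n + 1) :=
  pdLT_right (delMap (R := R) M) (epsMap (R := R) M) (delMap_injective M) (epsMap_surjective M)
    (exact_del_eps M) (pdLT_polynomialModule M h) (pdLT_mono (by omega) (pdLT_polynomialModule M h))

end basic

section hilbert

/-- transport of projective dimension along a ring isomorphism -/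
lemma pdLT_of_ringEquiv {R R' : Type} [CommRing R] [CommRing R'] (e : R ≃+* R')
    (M N : Type) [AddCommGroup M] [AddCommGroup N] [Module R M] [Module R' N]
    (f : M ≃+ N) (hf : ∀ (r : R) (m : M), f (r • m) = e r • f m) {n : ℕ}
    (h : PdLT R M (n + 1)) : PdLT R' N (n + 1) := by
  letI := RingHomInvPair.of_ringEquiv e
  letI := (RingHomInvPair.of_ringEquiv e).symm
  let f' : (ModuleCat.of R M) ≃ₛₗ[RingHomClass.toRingHom e] (ModuleCat.of R' N) :=
    { f with
      map_smul' := hf }
  exact ModuleCat.hasProjectiveDimensionLE_of_semiLinearEquiv e f' n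

/-- A field has global dimension zero and `MvPolynomial (Fin n) K` has global dimension `≤ n`. -/
theorem hilbert_syzygy (K : Type) [Field K] (n : ℕ) : ∀ (M : Type) [AddCommGroup M]
    [Module (MvPolynomial (Fin n) K) M], PdLT (MvPolynomial (Fin n) K) M (n + 1) := by
  induction n with
  | zero =>
    intro M _ _
    let e : MvPolynomial (Fin 0) K ≃+* K := (MvPolynomial.isEmptyRingEquiv K (Fin 0))
    letI : Module K M := Module.compHom M e.symm.toRingHom
    have h : PdLT K M 1 := pdLT_one_of_projective inferInstance
    exact pdLT_of_ringEquiv e.symm M M (AddEquiv.refl M) (fun r m => rfl) h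
  | succ n ih =>
    intro M _ _
    let R := MvPolynomial (Fin n) K
    let e : MvPolynomial (Fin (n + 1)) K ≃+* R[X] := (MvPolynomial.finSuccEquiv K n).toRingEquiv
    letI i1 : Module R[X] M := Module.compHom M e.symm.toRingHom
    letI i2 : Module R M := Module.compHom M (algebraMap R R[X])
    haveI : IsScalarTower R R[X] M := ⟨fun r f m => by
      rw [Algebra.smul_def, mul_smul]; rfl⟩
    have h : PdLT R[X] M (n + 2) := pdLT_polynomial M (ih M)
    exact pdLT_of_ringEquiv e.symm M M (AddEquiv.refl M) (fun r m => rfl) h

end hilbert

end Pool.Agent.H158R3
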