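import Mathlib
import Pool.Agent.H158R3.Hilb

set_option autoImplicit false
set_option linter.unusedSectionVars false

open CategoryTheory RingTheory.Sequence Abelian

namespace Pool.Agent.H158R3

variable (K : Type) [Field K]

/-- polynomial ring in four variables -/
abbrev S4 : Type := MvPolynomial (Fin 4) K

lemma X_regular_aux (s : Set (Fin 4)) (i : Fin 4) (hi : i ∉ s) :
    IsSMulRegular (S4 K ⧸ (Ideal.span (MvPolynomial.X '' s : Set (S4 K)) • (⊤ : Submodule (S4 K) (S4 K))))
      (MvPolynomial.X i : S4 K) := by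
  rw [isSMulRegular_quotient_iff_mem_of_smul_mem]
  intro p hp
  rw [smul_eq_mul, Ideal.mul_top] at hp ⊢
  rw [MvPolynomial.mem_ideal_span_X_image] at hp ⊢
  intro m hm
  have h1 : (Finsupp.single i 1 + m) ∈ ((MvPolynomial.X i : S4 K) • p).support := by
    rw [MvPolynomial.mem_support_iff, smul_eq_mul, MvPolynomial.coeff_X_mul]
    exact MvPolynomial.mem_support_iff.1 hm
  obtain ⟨j, hj, hj2⟩ := hp _ h1
  refine ⟨j, hj, ?_⟩
  have hij : i ≠ j := fun h => hi (h ▸ hj)
  simpa [Finsupp.single_apply, hij] using hj2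

lemma X_regular_aux' (J : Ideal (S4 K)) (s : Set (Fin 4)) (i : Fin 4) (hi : i ∉ s)
    (hJ : J = Ideal.span (MvPolynomial.X '' s : Set (S4 K))) :
    IsSMulRegular (S4 K ⧸ (J • (⊤ : Submodule (S4 K) (S4 K)))) (MvPolynomial.X i : S4 K) := by
  subst hJ
  exact X_regular_aux K s i hi

/-- the list of the four variables -/
noncomputable def vars : List (S4 K) := [MvPolynomial.X 0, MvPolynomial.X 1, MvPolynomial.X 2, MvPolynomial.X 3]

/-- the irrelevant ideal -/
noncomputable def mm : Ideal (S4 K) := Ideal.span (Set.range MvPolynomial.X)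

lemma mm_ne_top : mm K ≠ ⊤ := by
  intro h
  have h1 : (1 : S4 K) ∈ mm K := h ▸ Submodule.mem_top
  rw [mm, ← Set.image_univ, MvPolynomial.mem_ideal_span_X_image] at h1
  obtain ⟨i, -, hi⟩ := h1 0 (by simp [MvPolynomial.mem_support_iff])
  exact hi rfl

lemma vars_regular : IsRegular (S4 K) (vars K) := by
  constructor
  · rw [isWeaklyRegular_iff_Fin]
    intro i
    fin_cases i
    · exact X_regular_aux' K _ ∅ 0 (by simp) (by simp)
    · exact X_regular_aux' K _ {0} 1 (by simp) (by simp [vars])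
    · refine X_regular_aux' K _ {0, 1} 2 (by simp) ?_
      simp only [vars, Ideal.ofList, Set.image_insert_eq, Set.image_singleton]
      congr 1
      ext r; simp
    · refine X_regular_aux' K _ {0, 1, 2} 3 (by simp) ?_
      simp only [vars, Ideal.ofList, Set.image_insert_eq, Set.image_singleton]
      congr 1
      ext r; simp
  · intro h
    apply mm_ne_top K
    rw [eq_top_iff]
    rw [smul_eq_mul, Ideal.mul_top] at h
    rw [h]
    unfold mm
    apply Ideal.span_le.2
    intro x hx
    simp [vars] at hx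
    rcases hx with rfl | rfl | rfl | rfl <;> exact Ideal.subset_span ⟨_, rfl⟩

/-- residue field at the origin -/
noncomputable abbrev kk : ModuleCat.{0} (S4 K) := ModuleCat.of (S4 K) (S4 K ⧸ mm K)

lemma ext_self (i : ℕ) (hi : i < 4) : Subsingleton (Ext (kk K) (ModuleCat.of (S4 K) (S4 K)) i) := by
  refine ModuleCat.subsingleton_ext_of_exists_isRegular (mm K) (kk K) ?_ (ModuleCat.of (S4 K) (S4 K))
    ?_ (vars K) ?_ (vars_regular K) i hi
  · rw [Module.support_eq_zeroLocus, Ideal.annihilator_quotient]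
  · rw [smul_eq_mul, Ideal.mul_top]
    exact lt_top_iff_ne_top.2 (mm_ne_top K)
  · intro r hr
    simp [vars] at hr
    rcases hr with rfl | rfl | rfl | rfl <;> exact Ideal.subset_span ⟨_, rfl⟩

/-- `Sⁿ → S^{n+1} → ...` : short exact sequence `0 → S → S^{n+1} → Sⁿ → 0`. -/
noncomputable def consMap (n : ℕ) : S4 K →ₗ[S4 K] (Fin (n + 1) → S4 K) :=
  LinearMap.single (S4 K) (fun _ : Fin (n + 1) => S4 K) 0

noncomputable def tailMap (n : ℕ) : (Fin (n + 1) → S4 K) →ₗ[S4 K] (Fin n → S4 K) where
  toFun v := fun j => v j.succ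
  map_add' _ _ := rfl
  map_smul' _ _ := rfl

lemma cons_tail_exact (n : ℕ) : Function.Exact (consMap K n) (tailMap K n) := by
  intro v
  constructor
  · intro h
    refine ⟨v 0, ?_⟩
    ext1 j
    refine Fin.cases ?_ (fun j => ?_) j
    · simp [consMap]
    · have := congrFun h j
      simp only [tailMap, LinearMap.coe_mk, AddHom.coe_mk, Pi.zero_apply] at this
      simp [consMap, this]
  · rintro ⟨a, rfl⟩
    ext1 j
    simp [consMap, tailMap]

lemma cons_inj (n : ℕ) : Function.Injective (consMap K n) := by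
  intro a b h
  have := congrFun h 0
  simpa [consMap] using this

lemma tail_surj (n : ℕ) : Function.Surjective (tailMap K n) := by
  intro v
  exact ⟨Fin.cons 0 v, by ext1 j; simp [tailMap]⟩

lemma ext_free (n : ℕ) (i : ℕ) (hi : i < 4) :
    ∀ e : Ext (kk K) (ModuleCat.of (S4 K) (Fin n → S4 K)) i, e = 0 := by
  induction n with
  | zero =>
    intro e
    have h0 : (𝟙 (ModuleCat.of (S4 K) (Fin 0 → S4 K))) = 0 := by
      ext x j; exact j.elim0
    rw [← e.comp_mk₀_id, h0, Ext.mk₀_zero, Ext.comp_zero]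
  | succ n ih =>
    intro e
    have hS := sc_shortExact (consMap K n) (tailMap K n) (cons_inj K n) (tail_surj K n)
      (cons_tail_exact K n)
    obtain ⟨x₁, hx⟩ := Ext.covariant_sequence_exact₂ (kk K) hS e (ih _)
    have : Subsingleton (Ext (kk K) (ModuleCat.of (S4 K) (S4 K)) i) := ext_self K i hi
    have h1 : x₁ = 0 := Subsingleton.elim (α := Ext (kk K) (ModuleCat.of (S4 K) (S4 K)) i) x₁ 0
    rw [← hx, h1]
    apply Ext.zero_comp

/-- depth bound: if `pd M ≤ j` then `Ext^i(k, M) = 0` for `i + j < 4`. -/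
lemma ext_vanish (j : ℕ) : ∀ (i : ℕ), j + i < 4 → ∀ (M : Type) [AddCommGroup M] [Module (S4 K) M]
    [Module.Finite (S4 K) M], PdLT (S4 K) M (j + 1) →
    ∀ e : Ext (kk K) (ModuleCat.of (S4 K) M) i, e = 0 := by
  induction j with
  | zero =>
    intro i hi M _ _ _ hM e
    have hp := projective_of_pdLT_one hM
    obtain ⟨n, f, hf⟩ := Module.Finite.exists_fin' (S4 K) M
    obtain ⟨g, hg⟩ := Module.projective_lifting_property f LinearMap.id hf
    have h1 : (ModuleCat.ofHom g) ≫ (ModuleCat.ofHom f) = 𝟙 (ModuleCat.of (S4 K) M) := by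
      ext x
      exact LinearMap.congr_fun hg x
    rw [← e.comp_mk₀_id, ← h1, ← Ext.mk₀_comp_mk₀, ← Ext.comp_assoc_of_third_deg_zero,
      ext_free K n i (by omega) (e.comp (Ext.mk₀ (ModuleCat.ofHom g)) (add_zero i)),
      Ext.zero_comp]
  | succ j ih =>
    intro i hi M _ _ _ hM e
    obtain ⟨n, f, hf⟩ := Module.Finite.exists_fin' (S4 K) M
    have hS := sc_shortExact (LinearMap.ker f).subtype f (Submodule.injective_subtype _) hf
      (LinearMap.exact_subtype_ker_map f)
    have hK : PdLT (S4 K) (LinearMap.ker f) (j + 1) :=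
      pdLT_left (LinearMap.ker f).subtype f (Submodule.injective_subtype _) hf
        (LinearMap.exact_subtype_ker_map f)
        (pdLT_mono (by omega) (pdLT_one_of_projective inferInstance)) hM
    obtain ⟨x₂, hx⟩ := Ext.covariant_sequence_exact₃ (kk K) hS e (n₁ := i + 1) rfl
      (ih (i + 1) (by omega) _ hK _)
    have h2 : x₂ = 0 := ext_free K n i (by omega) x₂
    rw [← hx, h2]
    apply Ext.zero_comp

/-- no socle -/
lemma no_socle (M : Type) [AddCommGroup M] [Module (S4 K) M]
    [Module.Finite (S4 K) M] (hM : PdLT (S4 K) M 4) (x : M)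
    (hx : ∀ j, (MvPolynomial.X j : S4 K) • x = 0) : x = 0 := by
  have hle : mm K ≤ LinearMap.ker (LinearMap.toSpanSingleton (S4 K) M x) := by
    unfold mm
    rw [Ideal.span_le]
    rintro _ ⟨j, rfl⟩
    exact hx j
  let f : (S4 K ⧸ mm K) →ₗ[S4 K] M := (mm K).liftQ (LinearMap.toSpanSingleton (S4 K) M x) hle
  have h0 := ext_vanish K 3 0 (by omega) M hM (Ext.mk₀ (ModuleCat.ofHom f))
  have h1 : (ModuleCat.ofHom f) = 0 := by
    apply (Ext.mk₀_bijective (kk K) (ModuleCat.of (S4 K) M)).1
    rw [h0, Ext.mk₀_zero]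
  have h2 : f (Submodule.Quotient.mk 1) = 0 := by
    have := congrArg (fun g => (ModuleCat.Hom.hom g) (Submodule.Quotient.mk (1 : S4 K))) h1
    exact this
  have h3 : f (Submodule.Quotient.mk 1) = x := by
    show (LinearMap.toSpanSingleton (S4 K) M x) 1 = x
    simp
  rw [← h3, h2]

end Pool.Agent.H158R3
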