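import Mathlib
import Pool.Agent.H158R3.ExtVan

set_option autoImplicit false
set_option linter.unusedSectionVars false

open MvPolynomial

namespace Pool.Agent.H158R3

/-- The linear form `∑ j, a j * x_j` with coefficient vector `a`. -/
noncomputable def linForm {K : Type} [Field K] {l : ℕ} (a : Fin l → K) : MvPolynomial (Fin l) K :=
  ∑ j, C (a j) * X j

/-- vector version of the logarithmic derivations -/
def Dv {K : Type} [Field K] {l n : ℕ} (a : Fin n → Fin l → K) :
    Submodule (MvPolynomial (Fin l) K) (Fin l → MvPolynomial (Fin l) K) where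
  carrier := {θ | ∀ i, linForm (a i) ∣ ∑ j, C (a i j) * θ j}
  add_mem' := by
    intro θ η hθ hη i
    have := dvd_add (hθ i) (hη i)
    simpa [mul_add, Finset.sum_add_distrib] using this
  zero_mem' := by intro i; simp
  smul_mem' := by
    intro r θ hθ i
    have := dvd_mul_of_dvd_right (hθ i) r
    rw [Finset.mul_sum] at this
    simpa [mul_left_comm] using this

variable {K : Type} [Field K]

lemma mem_Dv {l n : ℕ} {a : Fin n → Fin l → K} {θ : Fin l → MvPolynomial (Fin l) K} :
    θ ∈ Dv a ↔ ∀ i, linForm (a i) ∣ ∑ j, C (a i j) * θ j := Iff.rfl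

lemma linForm_ne_zero {l : ℕ} {a : Fin l → K} (ha : a ≠ 0) : linForm a ≠ 0 := by
  intro h
  apply ha
  ext j
  have h1 := congrArg (coeff (Finsupp.single j 1)) h
  rw [linForm, coeff_sum] at h1
  simp only [coeff_C_mul, coeff_X, coeff_zero] at h1
  rw [Finset.sum_eq_single j] at h1
  · simpa using h1
  · intro b _ hb
    rw [if_neg, mul_zero]
    intro h
    exact hb (Finsupp.single_left_injective one_ne_zero h)
  · simp

section L

variable {R : Type} [CommRing R] [IsDomain R]

lemma pdLT_quot (α : R) (hα : α ≠ 0) : PdLT R (R ⧸ Ideal.span {α}) 2 := by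
  refine pdLT_right (LinearMap.lsmul R R α) (Submodule.mkQ (Ideal.span {α})) ?_
    (Submodule.mkQ_surjective _) ?_ (pdLT_one_of_projective inferInstance)
    (pdLT_mono (by omega) (pdLT_one_of_projective inferInstance))
  · intro x y h
    exact mul_left_cancel₀ hα h
  · intro x
    rw [Submodule.mkQ_apply, Submodule.Quotient.mk_eq_zero, Ideal.mem_span_singleton']
    constructor
    · rintro ⟨a, rfl⟩; exact ⟨a, mul_comm _ _⟩
    · rintro ⟨a, rfl⟩; exact ⟨a, mul_comm _ _⟩

lemma pdLT_range_left {A B : Type} [AddCommGroup A] [AddCommGroup B] [Module R A] [Module R B]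
    (f : A →ₗ[R] B) {n : ℕ} (hA : PdLT R A n) (hr : PdLT R (LinearMap.range f) (n + 1)) :
    PdLT R (LinearMap.ker f) n :=
  pdLT_left (LinearMap.ker f).subtype f.rangeRestrict (Submodule.injective_subtype _)
    f.surjective_rangeRestrict (by
      intro x
      constructor
      · intro h
        exact ⟨⟨x, by simpa using congrArg Subtype.val h⟩, rfl⟩
      · rintro ⟨y, rfl⟩
        exact Subtype.ext y.2) hA hr

lemma pdLT_submodule {B : Type} [AddCommGroup B] [Module R B] (N : Submodule R B) {n : ℕ}
    (hB : PdLT R B n) (hq : PdLT R (B ⧸ N) (n + 1)) : PdLT R N n :=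
  pdLT_left N.subtype N.mkQ (Submodule.injective_subtype _) (Submodule.mkQ_surjective _)
    (by intro x; simp) hB hq

lemma pdLT_quotient {B : Type} [AddCommGroup B] [Module R B] (N : Submodule R B) {n : ℕ}
    (hN : PdLT R N n) (hB : PdLT R B (n + 1)) : PdLT R (B ⧸ N) (n + 1) :=
  pdLT_right N.subtype N.mkQ (Submodule.injective_subtype _) (Submodule.mkQ_surjective _)
    (by intro x; simp) hN hB

/-- the key step: cutting by one hyperplane keeps projective dimension `≤ 1`
over a ring of global dimension `≤ 3`. -/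
lemma pdLT_cut (hR : ∀ (M : Type) [AddCommGroup M] [Module R M], PdLT R M 4)
    {N : Type} [AddCommGroup N] [Module R N] (hN : PdLT R N 2) (α : R) (hα : α ≠ 0)
    (f : N →ₗ[R] (R ⧸ Ideal.span {α})) : PdLT R (LinearMap.ker f) 2 := by
  apply pdLT_range_left f hN
  exact pdLT_submodule _ (pdLT_mono (by omega) (pdLT_quot α hα)) (hR _)

end L

/-- polynomial ring in three variables -/
abbrev R3 (K : Type) [Field K] : Type := MvPolynomial (Fin 3) K

/-- the value of a vector field on a linear form -/
noncomputable def valMap0 {l : ℕ} (b : Fin l → K) :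
    (Fin l → MvPolynomial (Fin l) K) →ₗ[MvPolynomial (Fin l) K] MvPolynomial (Fin l) K where
  toFun := fun θ => ∑ j, C (b j) * θ j
  map_add' := by intro x y; simp [mul_add, Finset.sum_add_distrib]
  map_smul' := by
    intro r x
    simp only [Pi.smul_apply, smul_eq_mul, RingHom.id_apply, Finset.mul_sum]
    exact Finset.sum_congr rfl fun j _ => by ring

/-- the value of a vector field on a linear form, modulo the linear form -/
noncomputable def valMap {l : ℕ} (b : Fin l → K) :
    (Fin l → MvPolynomial (Fin l) K) →ₗ[MvPolynomial (Fin l) K]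
      (MvPolynomial (Fin l) K ⧸ Ideal.span {linForm b}) :=
  (Submodule.mkQ (Ideal.span {linForm b})).comp (valMap0 b)

lemma valMap_eq_zero {l : ℕ} (b : Fin l → K) (θ : Fin l → MvPolynomial (Fin l) K) :
    valMap b θ = 0 ↔ linForm b ∣ ∑ j, C (b j) * θ j := by
  have h : valMap b θ = Submodule.Quotient.mk (valMap0 b θ) := rfl
  rw [h, Submodule.Quotient.mk_eq_zero, Ideal.mem_span_singleton]
  rfl

lemma pd_Dv3 (n : ℕ) : ∀ (a : Fin n → Fin 3 → K), (∀ i, a i ≠ 0) → PdLT (R3 K) (Dv a) 2 := by
  induction n with
  | zero =>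
    intro a _
    have h : Dv a = ⊤ := by
      rw [eq_top_iff]; intro θ _ i; exact i.elim0
    rw [h]
    exact pdLT_equiv Submodule.topEquiv.symm
      (pdLT_mono (by omega) (pdLT_one_of_projective inferInstance))
  | succ n ih =>
    intro a ha
    have h1 := ih (fun i => a i.succ) (fun i => ha _)
    have h2 := pdLT_cut (hilbert_syzygy K 3) h1 (linForm (a 0)) (linForm_ne_zero (ha 0))
      ((valMap (a 0)).comp (Dv (fun i => a i.succ)).subtype)
    refine pdLT_equiv ?_ h2
    refine
      { toFun := fun x => ⟨x.1.1, ?_⟩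
        map_add' := fun _ _ => rfl
        map_smul' := fun _ _ => rfl
        invFun := fun x => ⟨⟨x.1, fun i => x.2 i.succ⟩, ?_⟩
        left_inv := fun _ => rfl
        right_inv := fun _ => rfl }
    · intro i
      refine Fin.cases ?_ (fun i => ?_) i
      · exact (valMap_eq_zero _ _).1 x.2
      · exact x.1.2 i
    · exact (valMap_eq_zero _ _).2 (x.2 0)

end Pool.Agent.H158R3
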