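import Mathlib
import Pool.Agent.H158R3.Arr

set_option autoImplicit false
set_option linter.unusedSectionVars false

namespace Pool.Agent.H158R3

variable {K : Type} [Field K]

/-- `K[x,y,z][w]` -/
abbrev PP (K : Type) [Field K] : Type := Polynomial (R3 K)

/-- the variable `z` of `K[x,y,z]` -/
noncomputable abbrev zz (K : Type) [Field K] : R3 K := MvPolynomial.X 2

/-- `K[x,y,z]` as a module over `K[x,y,z][w]` through `w ↦ z` -/
def Rz (K : Type) [Field K] : Type := R3 K

noncomputable instance : AddCommGroup (Rz K) := inferInstanceAs (AddCommGroup (R3 K))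
noncomputable instance : Module (R3 K) (Rz K) := inferInstanceAs (Module (R3 K) (R3 K))
noncomputable instance : Module (PP K) (Rz K) :=
  Module.compHom (R3 K) (Polynomial.evalRingHom (zz K))

/-- the identity map -/
def toRz (m : R3 K) : Rz K := m

lemma PP_smul (f : PP K) (m : R3 K) : f • toRz m = toRz (f.eval (zz K) * m) := rfl

lemma R3_smul (f : R3 K) (m : R3 K) : f • toRz m = toRz (f * m) := rfl

instance : IsScalarTower (R3 K) (PP K) (Rz K) := ⟨fun r f m => by
  have key : ∀ m' : R3 K, (r • f) • toRz m' = r • (f • toRz m') := by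
    intro m'
    rw [PP_smul, PP_smul, R3_smul, Polynomial.eval_smul, smul_eq_mul, mul_assoc]
  exact key m⟩

variable {n : ℕ} (a : Fin n → Fin 3 → K)

/-- component maps -/
noncomputable def kap (j : Fin 3) : PolynomialModule (R3 K) (Dv a) →ₗ[PP K] PP K :=
  PolynomialModule.equivPolynomialSelf.toLinearMap.comp
    (pmap ((LinearMap.proj j).comp (Dv a).subtype))

lemma kap_coeff (j : Fin 3) (m : PolynomialModule (R3 K) (Dv a)) (k : ℕ) :
    (kap a j m).coeff k = (m.coeff k).1 j := rfl

/-- the middle term -/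
abbrev TT : Type := PP K × PolynomialModule (R3 K) (Dv a)

/-- `θ ↦ θ(w - z)` at `w = z` -/
noncomputable def rho : TT a →ₗ[PP K] Rz K where
  toFun x := (zz K * x.1.eval (zz K) - (kap a 2 x.2).eval (zz K) : R3 K)
  map_add' x y := by
    show (zz K * (x.1 + y.1).eval (zz K) - (kap a 2 (x.2 + y.2)).eval (zz K) : R3 K) =
      (zz K * x.1.eval (zz K) - (kap a 2 x.2).eval (zz K)) +
      (zz K * y.1.eval (zz K) - (kap a 2 y.2).eval (zz K))
    rw [map_add, Polynomial.eval_add, Polynomial.eval_add]; ring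
  map_smul' f x := by
    show (zz K * (f • x.1).eval (zz K) - (kap a 2 (f • x.2)).eval (zz K) : R3 K) =
      f.eval (zz K) * (zz K * x.1.eval (zz K) - (kap a 2 x.2).eval (zz K))
    rw [map_smul, smul_eq_mul, smul_eq_mul, Polynomial.eval_mul, Polynomial.eval_mul]; ring

lemma rho_apply (x : TT a) :
    rho a x = (zz K * x.1.eval (zz K) - (kap a 2 x.2).eval (zz K) : R3 K) := rfl

lemma pd_TT (ha : ∀ i, a i ≠ 0) : PdLT (PP K) (TT a) 2 :=
  pdLT_mid (LinearMap.inl (PP K) (PP K) (PolynomialModule (R3 K) (Dv a)))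
    (LinearMap.snd (PP K) (PP K) (PolynomialModule (R3 K) (Dv a)))
    LinearMap.inl_injective LinearMap.snd_surjective Function.Exact.inl_snd
    (pdLT_mono (by omega) (pdLT_one_of_projective inferInstance))
    (pdLT_polynomialModule _ (pd_Dv3 n a ha))

/-- coefficient vectors of the gadget arrangement: `w - z`, `w`, and the given planes -/
def gad : Fin (n + 2) → Fin 4 → K :=
  Matrix.vecCons ![1, 0, 0, -1] (Matrix.vecCons ![1, 0, 0, 0] (fun i => Matrix.vecCons 0 (a i)))

/-- the isomorphism `K[w,x,y,z] = K[x,y,z][w]` -/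
noncomputable abbrev ee (K : Type) [Field K] : S4 K ≃ₐ[K] PP K := MvPolynomial.finSuccEquiv K 3

lemma ee_linForm_cons (v : Fin 3 → K) :
    ee K (linForm (Matrix.vecCons 0 v)) = Polynomial.C (linForm v) := by
  simp only [linForm, map_sum, map_mul]
  rw [Fin.sum_univ_succ]
  simp only [Matrix.cons_val_zero, Matrix.cons_val_succ, map_zero, zero_mul, zero_add]
  refine Finset.sum_congr rfl fun j _ => ?_
  rw [MvPolynomial.finSuccEquiv_X_succ, MvPolynomial.finSuccEquiv_apply]
  simp

lemma ee_linForm_w : ee K (linForm ![1, 0, 0, 0]) = Polynomial.X := by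
  simp [linForm, Fin.sum_univ_succ, MvPolynomial.finSuccEquiv_X_zero]

lemma ee_linForm_wz : ee K (linForm ![1, 0, 0, -1]) = Polynomial.X - Polynomial.C (zz K) := by
  have h3 : ee K (MvPolynomial.X 3) = Polynomial.C (zz K) :=
    MvPolynomial.finSuccEquiv_X_succ (j := (2 : Fin 3))
  have h0 : ee K (MvPolynomial.X 0) = Polynomial.X := MvPolynomial.finSuccEquiv_X_zero
  have hl : linForm ![1, 0, 0, -1] = (MvPolynomial.X 0 : S4 K) - MvPolynomial.X 3 := by
    simp [linForm, Fin.sum_univ_succ, sub_eq_add_neg]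
  rw [hl, map_sub, h3, h0]

/-- from the middle term to vector fields in four variables -/
noncomputable def sig (x : TT a) : Fin 4 → S4 K :=
  Matrix.vecCons ((ee K).symm (Polynomial.X * x.1)) (fun j => (ee K).symm (kap a j x.2))

lemma ee_sum' (v : Fin 3 → K) (θ : Fin 4 → S4 K) :
    ee K (∑ j, MvPolynomial.C (Matrix.vecCons 0 v j) * θ j) =
      ∑ j : Fin 3, Polynomial.C (MvPolynomial.C (v j)) * ee K (θ j.succ) := by
  rw [Fin.sum_univ_succ]
  simp only [Matrix.cons_val_zero, Matrix.cons_val_succ, map_zero, zero_mul, zero_add,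
    map_sum, map_mul]
  refine Finset.sum_congr rfl fun j _ => ?_
  congr 1
  rw [MvPolynomial.finSuccEquiv_apply]
  simp

lemma ee_sum (v : Fin 3 → K) (x : TT a) :
    ee K (∑ j, MvPolynomial.C (Matrix.vecCons 0 v j) * sig a x j) =
      ∑ j, Polynomial.C (MvPolynomial.C (v j)) * kap a j x.2 := by
  rw [ee_sum']
  simp [sig]

lemma sig_mem_planes (x : TT a) (i : Fin n) :
    linForm (Matrix.vecCons 0 (a i)) ∣ ∑ j, MvPolynomial.C (Matrix.vecCons 0 (a i) j) * sig a x j := by
  rw [← map_dvd_iff (ee K), ee_linForm_cons, ee_sum, Polynomial.C_dvd_iff_dvd_coeff]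
  intro k
  rw [Polynomial.finsetSum_coeff]
  simp only [Polynomial.coeff_C_mul, kap_coeff]
  exact (x.2.coeff k).2 i

lemma sig_w (x : TT a) :
    linForm ![1, 0, 0, 0] ∣ ∑ j, MvPolynomial.C ((![1, 0, 0, 0] : Fin 4 → K) j) * sig a x j := by
  rw [← map_dvd_iff (ee K), ee_linForm_w]
  refine ⟨x.1, ?_⟩
  simp [Fin.sum_univ_succ, sig]

lemma sig_wz (x : TT a) :
    (linForm ![1, 0, 0, -1] ∣ ∑ j, MvPolynomial.C ((![1, 0, 0, -1] : Fin 4 → K) j) * sig a x j) ↔
      rho a x = 0 := by
  rw [← map_dvd_iff (ee K), ee_linForm_wz, Polynomial.dvd_iff_isRoot, Polynomial.IsRoot.def,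
    rho_apply]
  have : ee K (∑ j, MvPolynomial.C ((![1, 0, 0, -1] : Fin 4 → K) j) * sig a x j) =
      Polynomial.X * x.1 - kap a 2 x.2 := by
    have h3 : sig a x 3 = (ee K).symm (kap a 2 x.2) := rfl
    have h0 : sig a x 0 = (ee K).symm (Polynomial.X * x.1) := rfl
    have h4 : (∑ j, MvPolynomial.C ((![1, 0, 0, -1] : Fin 4 → K) j) * sig a x j) =
      sig a x 0 - sig a x 3 := by
      simp [Fin.sum_univ_four, sub_eq_add_neg]
    rw [h4, h3, h0, map_sub, AlgEquiv.apply_symm_apply, AlgEquiv.apply_symm_apply]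
  rw [this]
  simp only [Polynomial.eval_sub, Polynomial.eval_mul, Polynomial.eval_X]
  rfl

lemma sig_mem (x : TT a) : sig a x ∈ Dv (gad a) ↔ rho a x = 0 := by
  rw [← sig_wz]
  constructor
  · intro h
    exact h 0
  · intro h i
    refine Fin.cases h (fun i => ?_) i
    refine Fin.cases (sig_w a x) (fun i => ?_) i
    exact sig_mem_planes a x i

lemma sig_smul (f : PP K) (x : TT a) : sig a (f • x) = (ee K).symm f • sig a x := by
  ext1 j
  refine Fin.cases ?_ (fun j => ?_) j
  · simp [sig, mul_left_comm]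
  · simp [sig]

lemma sig_add (x y : TT a) : sig a (x + y) = sig a x + sig a y := by
  ext1 j
  refine Fin.cases ?_ (fun j => ?_) j
  · simp [sig, mul_add]
  · simp [sig]

lemma sig_inj : Function.Injective (sig a) := by
  intro x y h
  have h0 := congrFun h 0
  simp only [sig, Matrix.cons_val_zero, EmbeddingLike.apply_eq_iff_eq] at h0
  have h1 : x.1 = y.1 := mul_left_cancel₀ Polynomial.X_ne_zero h0
  refine Prod.ext h1 ?_
  ext k : 2
  apply Subtype.ext
  funext j
  have h2 := congrFun h j.succ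
  simp only [sig, Matrix.cons_val_succ, EmbeddingLike.apply_eq_iff_eq] at h2
  have := congrArg (fun p => Polynomial.coeff p k) h2
  simpa only [kap_coeff] using this

lemma sig_surj (θ : Fin 4 → S4 K) (hθ : θ ∈ Dv (gad a)) : ∃ x, sig a x = θ := by
  classical
  have hw : Polynomial.X ∣ ee K (θ 0) := by
    have := hθ 1
    rw [← map_dvd_iff (ee K)] at this
    have h1 : ee K (linForm (gad a 1)) = Polynomial.X := ee_linForm_w
    rw [h1] at this
    simpa [Fin.sum_univ_succ, gad] using this
  obtain ⟨g, hg⟩ := hw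
  have hk : ∀ k : ℕ, (fun j : Fin 3 => (ee K (θ j.succ)).coeff k) ∈ Dv a := by
    intro k i
    have h1 := hθ i.succ.succ
    have h2 : gad a i.succ.succ = Matrix.vecCons 0 (a i) := rfl
    rw [h2, ← map_dvd_iff (ee K), ee_linForm_cons, Polynomial.C_dvd_iff_dvd_coeff] at h1
    have h3 := h1 k
    rw [ee_sum', Polynomial.finsetSum_coeff] at h3
    simpa only [Polynomial.coeff_C_mul] using h3
  let N : ℕ := ((ee K (θ 1)).natDegree + (ee K (θ 2)).natDegree + (ee K (θ 3)).natDegree) + 1
  let m : PolynomialModule (R3 K) (Dv a) := PolynomialModule.ofCoeff (R3 K)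
    (Finsupp.onFinset (Finset.range N) (fun k => (⟨_, hk k⟩ : Dv a)) (by
      intro k hk'
      by_contra hcon
      apply hk'
      have hkN : N ≤ k := by simpa using hcon
      apply Subtype.ext
      funext j
      have hall : ∀ j : Fin 3, (ee K (θ j.succ)).natDegree < k := by
        intro j
        fin_cases j <;> simp [N] at hkN ⊢ <;> omega
      exact Polynomial.coeff_eq_zero_of_natDegree_lt (hall j)))
  refine ⟨(g, m), ?_⟩
  ext1 j
  refine Fin.cases ?_ (fun j => ?_) j
  · simp only [sig, Matrix.cons_val_zero]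
    rw [← hg, AlgEquiv.symm_apply_apply]
  · simp only [sig, Matrix.cons_val_succ]
    rw [AlgEquiv.symm_apply_eq]
    ext1 k
    rw [kap_coeff]
    rfl

/-- additive equivalence between the kernel of `rho` and the logarithmic vector fields -/
noncomputable def kerEquiv : LinearMap.ker (rho a) ≃+ Dv (gad a) :=
  AddEquiv.ofBijective
    ({ toFun := fun x => ⟨sig a x.1, (sig_mem a x.1).2 x.2⟩
       map_zero' := by
        apply Subtype.ext
        have := sig_add a 0 0
        simpa using this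
       map_add' := fun x y => Subtype.ext (sig_add a x.1 y.1) } :
      LinearMap.ker (rho a) →+ Dv (gad a))
    ⟨fun x y h => Subtype.ext (sig_inj a (congrArg Subtype.val h)), fun θ => by
      obtain ⟨x, hx⟩ := sig_surj a θ.1 θ.2
      exact ⟨⟨x, (sig_mem a x).1 (hx ▸ θ.2)⟩, Subtype.ext hx⟩⟩

lemma kerEquiv_smul (f : PP K) (x : LinearMap.ker (rho a)) :
    kerEquiv a (f • x) = (ee K).symm.toRingEquiv f • kerEquiv a x :=
  Subtype.ext (sig_smul a f x.1)

lemma pd_iff (m : ℕ) : PdLT (PP K) (LinearMap.ker (rho a)) (m + 1) ↔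
    PdLT (S4 K) (Dv (gad a)) (m + 1) := by
  constructor
  · exact pdLT_of_ringEquiv (ee K).symm.toRingEquiv _ _ (kerEquiv a) (kerEquiv_smul a)
  · refine pdLT_of_ringEquiv (ee K).toRingEquiv _ _ (kerEquiv a).symm ?_
    intro r θ
    rw [AddEquiv.symm_apply_eq, kerEquiv_smul, AddEquiv.apply_symm_apply]
    congr 1
    exact ((ee K).symm_apply_apply r).symm

end Pool.Agent.H158R3
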