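import Mathlib
import Pool.Agent.H158R3.Gadget

set_option autoImplicit false
set_option linter.unusedSectionVars false

namespace Pool.Agent.H158R3

variable {K : Type} [Field K] {n : ℕ} (a : Fin n → Fin 3 → K)

/-- put a vector field in degree zero -/
noncomputable def atZero (θ : Dv a) : TT a := (0, PolynomialModule.single (R3 K) 0 θ)

lemma rho_atZero (θ : Dv a) : rho a (atZero a θ) = toRz (- θ.1 2) := by
  rw [rho_apply]
  have h : kap a 2 (PolynomialModule.single (R3 K) 0 θ) = Polynomial.C (θ.1 2) := by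
    ext k : 1
    rw [kap_coeff, PolynomialModule.coeff_single, Polynomial.coeff_C]
    by_cases hk : k = 0
    · subst hk; simp
    · simp [hk]
  show toRz (zz K * (0 : PP K).eval (zz K) - (kap a 2 (PolynomialModule.single (R3 K) 0 θ)).eval (zz K)) = _
  rw [h]
  simp

lemma z_mem_range : toRz (zz K) ∈ LinearMap.range (rho a) := by
  refine ⟨(1, 0), ?_⟩
  rw [rho_apply]
  show toRz (zz K * (1 : PP K).eval (zz K) - (kap a 2 0).eval (zz K)) = _
  simp

lemma range_smul (p q : R3 K) (h : toRz q ∈ LinearMap.range (rho a)) :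
    toRz (p * q) ∈ LinearMap.range (rho a) := by
  have := Submodule.smul_mem _ (Polynomial.C p : PP K) h
  rw [PP_smul, Polynomial.eval_C] at this
  exact this

lemma theta_mem_range (θ : Dv a) : toRz (θ.1 2) ∈ LinearMap.range (rho a) := by
  have : toRz (-θ.1 2) ∈ LinearMap.range (rho a) := ⟨_, rho_atZero a θ⟩
  have h2 := range_smul a (-1) _ this
  simpa using h2

/-- an element of the range of `rho` is congruent mod `z` to `-θ_z` for some logarithmic `θ` -/
lemma range_elim (u : R3 K) (h : toRz u ∈ LinearMap.range (rho a)) :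
    ∃ θ : Dv a, zz K ∣ u + θ.1 2 := by
  obtain ⟨⟨g, m⟩, hx⟩ := h
  refine ⟨m.coeff 0, ?_⟩
  have h1 : u = zz K * g.eval (zz K) - (kap a 2 m).eval (zz K) := hx.symm
  have h2 : zz K ∣ (kap a 2 m).eval (zz K) - (m.coeff 0).1 2 := by
    have h3 : (m.coeff 0).1 2 = (kap a 2 m).eval 0 := by
      rw [← Polynomial.coeff_zero_eq_eval_zero, kap_coeff]
    rw [h3]
    have := Polynomial.sub_dvd_eval_sub (zz K) 0 (kap a 2 m)
    simpa using this
  obtain ⟨c, hc⟩ := h2
  refine ⟨g.eval (zz K) - c, ?_⟩
  rw [h1]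
  linear_combination -hc

/-- the good case -/
lemma pd_range_good (b : R3 K) (hb : ¬ zz K ∣ b) (h1 : ∀ θ : Dv a, θ.1 2 ∈ Ideal.span {zz K, b})
    (h2 : ∃ θ : Dv a, θ.1 2 = b) : PdLT (PP K) (LinearMap.range (rho a)) 3 := by
  have hbm : toRz b ∈ LinearMap.range (rho a) := by
    obtain ⟨θ, rfl⟩ := h2; exact theta_mem_range a θ
  have hmem : ∀ p q : R3 K, toRz (p * zz K + q * b) ∈ LinearMap.range (rho a) := fun p q =>
    Submodule.add_mem _ (range_smul a p _ (z_mem_range a)) (range_smul a q _ hbm)
  apply pdLT_polynomial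
  let f : R3 K →ₗ[R3 K] R3 K × R3 K :=
    { toFun := fun t => (b * t, - (zz K * t))
      map_add' := fun x y => by simp [mul_add, add_comm]
      map_smul' := fun r x => by simp [mul_left_comm] }
  let g : R3 K × R3 K →ₗ[R3 K] LinearMap.range (rho a) :=
    { toFun := fun x => ⟨toRz (x.1 * zz K + x.2 * b), hmem x.1 x.2⟩
      map_add' := fun x y => by
        apply Subtype.ext
        show ((x.1 + y.1) * zz K + (x.2 + y.2) * b : R3 K) =
          (x.1 * zz K + x.2 * b) + (y.1 * zz K + y.2 * b)
        ring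
      map_smul' := fun r x => by
        apply Subtype.ext
        show ((r * x.1) * zz K + (r * x.2) * b : R3 K) = r * (x.1 * zz K + x.2 * b)
        ring }
  have hz : Prime (zz K) := MvPolynomial.X_prime
  refine pdLT_right f g ?_ ?_ ?_ (pdLT_one_of_projective inferInstance)
    (pdLT_mono (by omega) (pdLT_one_of_projective inferInstance))
  · intro x y h
    have h3 : b * x = b * y := congrArg Prod.fst h
    have hb0 : b ≠ 0 := fun h => hb (h ▸ dvd_zero _)
    exact mul_left_cancel₀ hb0 h3
  · have main : ∀ u : R3 K, toRz u ∈ LinearMap.range (rho a) →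
        ∃ p q : R3 K, p * zz K + q * b = u := by
      intro u hu
      obtain ⟨θ, c, hc⟩ := range_elim a u hu
      have h4 := h1 θ
      rw [Ideal.mem_span_pair] at h4
      obtain ⟨s, t, hst⟩ := h4
      exact ⟨c - s, -t, by linear_combination -hc - hst⟩
    rintro ⟨u, hu⟩
    obtain ⟨p, q, hpq⟩ := main u hu
    exact ⟨(p, q), Subtype.ext hpq⟩
  · rintro ⟨p, q⟩
    constructor
    · intro h
      have h5 : (p * zz K + q * b : R3 K) = 0 := congrArg Subtype.val h
      have h6 : zz K ∣ q * b := ⟨-p, by linear_combination h5⟩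
      have h7 : zz K ∣ q := (hz.dvd_or_dvd h6).resolve_right hb
      obtain ⟨t, rfl⟩ := h7
      refine ⟨-t, ?_⟩
      have h8 : zz K * (p + t * b) = 0 := by linear_combination h5
      have h9 := (mul_eq_zero.1 h8).resolve_left hz.ne_zero
      refine Prod.ext ?_ ?_
      · show b * (-t) = p
        linear_combination -h9
      · show -(zz K * (-t)) = zz K * t
        ring
    · rintro ⟨t, ht⟩
      have e1 : b * t = p := congrArg Prod.fst ht
      have e2 : -(zz K * t) = q := congrArg Prod.snd ht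
      apply Subtype.ext
      show (p * zz K + q * b : R3 K) = 0
      rw [← e1, ← e2]; ring

theorem pd_good (ha : ∀ i, a i ≠ 0) (b : R3 K) (hb : ¬ zz K ∣ b)
    (h1 : ∀ θ : Dv a, θ.1 2 ∈ Ideal.span {zz K, b})
    (h2 : ∃ θ : Dv a, θ.1 2 = b) : PdLT (S4 K) (Dv (gad a)) 2 :=
  (pd_iff a 1).1 (pdLT_range_left (rho a) (pd_TT a ha) (pd_range_good a b hb h1 h2))

/-- the bad case: the vector field with value `b` is missing, but those with values
`x b`, `y b` exist. -/
theorem pd_bad (b : R3 K) (h0 : ∀ θ : Dv a, ¬ zz K ∣ b + θ.1 2)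
    (h1 : ∃ θ : Dv a, θ.1 2 = MvPolynomial.X 0 * b)
    (h2 : ∃ θ : Dv a, θ.1 2 = MvPolynomial.X 1 * b)
    (ha : ∀ i, a i ≠ 0) : ¬ PdLT (S4 K) (Dv (gad a)) 2 := by
  intro hpd
  have hker : PdLT (PP K) (LinearMap.ker (rho a)) 2 := (pd_iff a 1).2 hpd
  have hrange : PdLT (PP K) (LinearMap.range (rho a)) 3 :=
    pdLT_right (LinearMap.ker (rho a)).subtype (rho a).rangeRestrict
      (Submodule.injective_subtype _) (rho a).surjective_rangeRestrict (by
        intro x
        constructor
        · intro h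
          exact ⟨⟨x, by simpa using congrArg Subtype.val h⟩, rfl⟩
        · rintro ⟨y, rfl⟩
          exact Subtype.ext y.2) hker (pdLT_mono (by omega) (pd_TT a ha))
  have hRz : PdLT (PP K) (Rz K) 2 := by
    apply pdLT_polynomial
    exact pdLT_one_of_projective (inferInstanceAs (Module.Projective (R3 K) (R3 K)))
  have hq : PdLT (PP K) (Rz K ⧸ LinearMap.range (rho a)) 4 :=
    pdLT_quotient _ hrange (pdLT_mono (by omega) hRz)
  -- view the quotient over `S4`
  let Q : Type := Rz K ⧸ LinearMap.range (rho a)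
  let iM : Module (S4 K) Q := Module.compHom Q (ee K).toRingEquiv.toRingHom
  have hQ : PdLT (S4 K) Q 4 :=
    pdLT_of_ringEquiv (ee K).symm.toRingEquiv Q Q (AddEquiv.refl Q) (fun r m => by
      show r • m = (ee K) ((ee K).symm r) • m
      rw [AlgEquiv.apply_symm_apply]) hq
  let mkq : R3 K → Q := fun u => Submodule.Quotient.mk (toRz u)
  have hfin : Module.Finite (S4 K) Q := by
    refine ⟨⟨{mkq 1}, ?_⟩⟩
    rw [eq_top_iff]
    intro q _
    obtain ⟨u, rfl⟩ : ∃ u : R3 K, mkq u = q := Submodule.Quotient.mk_surjective _ q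
    rw [Finset.coe_singleton, Submodule.mem_span_singleton]
    refine ⟨(ee K).symm (Polynomial.C u), ?_⟩
    show (ee K) ((ee K).symm (Polynomial.C u)) • mkq 1 = _
    rw [AlgEquiv.apply_symm_apply]
    show Submodule.Quotient.mk ((Polynomial.C u : PP K) • toRz 1) = _
    rw [PP_smul, Polynomial.eval_C, mul_one]
  have hzero : ∀ u : R3 K, toRz u ∈ LinearMap.range (rho a) → mkq u = 0 := fun u hu =>
    (Submodule.Quotient.mk_eq_zero _).2 hu
  have hact : ∀ (s : S4 K) (u : R3 K), s • mkq u = mkq ((ee K s).eval (zz K) * u) := fun s u => rfl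
  have hz : toRz (zz K * b) ∈ LinearMap.range (rho a) := by
    rw [mul_comm]; exact range_smul a b _ (z_mem_range a)
  have key := no_socle K Q hQ (mkq b) (by
    intro j
    rw [hact]
    apply hzero
    have e0 : ee K (MvPolynomial.X 0) = Polynomial.X := MvPolynomial.finSuccEquiv_X_zero
    have e1 : ∀ j : Fin 3, ee K (MvPolynomial.X j.succ) = Polynomial.C (MvPolynomial.X j) := fun j =>
      MvPolynomial.finSuccEquiv_X_succ (j := j)
    refine Fin.cases ?_ (fun j => ?_) j
    · rw [e0, Polynomial.eval_X]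
      exact hz
    · rw [e1, Polynomial.eval_C]
      fin_cases j
      · obtain ⟨θ, hθ⟩ := h1
        have := theta_mem_range a θ
        rw [hθ] at this
        exact this
      · obtain ⟨θ, hθ⟩ := h2
        have := theta_mem_range a θ
        rw [hθ] at this
        exact this
      · exact hz)
  have hb : toRz b ∈ LinearMap.range (rho a) := (Submodule.Quotient.mk_eq_zero _).1 key
  obtain ⟨θ, hθ⟩ := range_elim a b hb
  exact h0 θ hθ

end Pool.Agent.H158R3
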