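import Mathlib
import Pool.Agent.H158R3.GoodBad

set_option autoImplicit false
set_option linter.unusedSectionVars false
set_option linter.unusedSimpArgs false

open MvPolynomial

namespace Pool.Agent.H158R3

/-- the generic member (`c = 2`) -/
def Mg : Fin 8 → Fin 3 → ℤ := ![![1, -2, 2], ![1, 0, 2], ![0, 1, 0], ![1, -1, 0], ![1, 0, -1], ![0, 1, -2], ![1, -1, 1], ![1, 0, 0]]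

/-- the special member (`c = 1/2`, rescaled) -/
def Mb : Fin 8 → Fin 3 → ℤ := ![![2, -1, -2], ![1, 0, -1], ![0, 1, 0], ![1, -1, 0], ![1, 0, -4], ![0, 1, -2], ![1, -1, -2], ![1, 0, 0]]

variable (K : Type) [Field K]

def ag : Fin 8 → Fin 3 → K := fun i j => (Mg i j : K)

def ab : Fin 8 → Fin 3 → K := fun i j => (Mb i j : K)

/-- `b = x^2 y (x - y)` -/
noncomputable def bb : R3 K := X 0 ^ 2 * X 1 * (X 0 - X 1)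

noncomputable def thG : Fin 3 → R3 K :=
  ![4 * X 0 ^ 4 - 9 * X 0 ^ 3 * X 1 + 8 * X 0 ^ 3 * X 2 + 3 * X 0 ^ 2 * X 1 ^ 2 - 4 * X 0 ^ 2 * X 2 ^ 2 - 6 * X 0 * X 1 ^ 2 * X 2 + 12 * X 0 * X 1 * X 2 ^ 2 - 8 * X 0 * X 2 ^ 3,
    6 * X 0 ^ 3 * X 1 - 6 * X 0 ^ 2 * X 1 ^ 2 - 8 * X 0 * X 1 ^ 3 + 24 * X 0 * X 1 ^ 2 * X 2 - 16 * X 0 * X 1 * X 2 ^ 2 + 6 * X 1 ^ 4 - 22 * X 1 ^ 3 * X 2 + 24 * X 1 ^ 2 * X 2 ^ 2 - 8 * X 1 * X 2 ^ 3,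
    3 * X 0 ^ 3 * X 1 - 3 * X 0 ^ 2 * X 1 ^ 2]

lemma thG_mem : thG K ∈ Dv (ag K) := by
  intro i
  fin_cases i
  · refine ⟨4 * X 0 ^ 3 - 7 * X 0 ^ 2 * X 1 - 5 * X 0 * X 1 ^ 2 + 14 * X 0 * X 1 * X 2 - 4 * X 0 * X 2 ^ 2 + 6 * X 1 ^ 3 - 16 * X 1 ^ 2 * X 2 + 8 * X 1 * X 2 ^ 2, ?_⟩
    simp [linForm, Fin.sum_univ_three, ag, Mg, thG]
    try ring
  · refine ⟨4 * X 0 ^ 3 - 3 * X 0 ^ 2 * X 1 - 3 * X 0 * X 1 ^ 2 + 6 * X 0 * X 1 * X 2 - 4 * X 0 * X 2 ^ 2, ?_⟩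
    simp [linForm, Fin.sum_univ_three, ag, Mg, thG]
    try ring
  · refine ⟨6 * X 0 ^ 3 - 6 * X 0 ^ 2 * X 1 - 8 * X 0 * X 1 ^ 2 + 24 * X 0 * X 1 * X 2 - 16 * X 0 * X 2 ^ 2 + 6 * X 1 ^ 3 - 22 * X 1 ^ 2 * X 2 + 24 * X 1 * X 2 ^ 2 - 8 * X 2 ^ 3, ?_⟩
    simp [linForm, Fin.sum_univ_three, ag, Mg, thG]
    try ring
  · refine ⟨4 * X 0 ^ 3 - 11 * X 0 ^ 2 * X 1 + 8 * X 0 ^ 2 * X 2 - 2 * X 0 * X 1 ^ 2 + 8 * X 0 * X 1 * X 2 - 4 * X 0 * X 2 ^ 2 + 6 * X 1 ^ 3 - 22 * X 1 ^ 2 * X 2 + 24 * X 1 * X 2 ^ 2 - 8 * X 2 ^ 3, ?_⟩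
    simp [linForm, Fin.sum_univ_three, ag, Mg, thG]
    try ring
  · refine ⟨4 * X 0 ^ 3 - 12 * X 0 ^ 2 * X 1 + 12 * X 0 ^ 2 * X 2 + 6 * X 0 * X 1 ^ 2 - 12 * X 0 * X 1 * X 2 + 8 * X 0 * X 2 ^ 2, ?_⟩
    simp [linForm, Fin.sum_univ_three, ag, Mg, thG]
    try ring
  · refine ⟨-8 * X 0 * X 1 ^ 2 + 8 * X 0 * X 1 * X 2 + 6 * X 1 ^ 3 - 10 * X 1 ^ 2 * X 2 + 4 * X 1 * X 2 ^ 2, ?_⟩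
    simp [linForm, Fin.sum_univ_three, ag, Mg, thG]
    try ring
  · refine ⟨4 * X 0 ^ 3 - 8 * X 0 ^ 2 * X 1 + 4 * X 0 ^ 2 * X 2 - 2 * X 0 * X 1 ^ 2 + 12 * X 0 * X 1 * X 2 - 8 * X 0 * X 2 ^ 2 + 6 * X 1 ^ 3 - 16 * X 1 ^ 2 * X 2 + 8 * X 1 * X 2 ^ 2, ?_⟩
    simp [linForm, Fin.sum_univ_three, ag, Mg, thG]
    try ring
  · refine ⟨4 * X 0 ^ 3 - 9 * X 0 ^ 2 * X 1 + 8 * X 0 ^ 2 * X 2 + 3 * X 0 * X 1 ^ 2 - 4 * X 0 * X 2 ^ 2 - 6 * X 1 ^ 2 * X 2 + 12 * X 1 * X 2 ^ 2 - 8 * X 2 ^ 3, ?_⟩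
    simp [linForm, Fin.sum_univ_three, ag, Mg, thG]
    try ring

lemma thG_two : thG K 2 = 3 * bb K := by
  simp only [thG, bb, Matrix.cons_val]
  ring

noncomputable def thX : Fin 3 → R3 K :=
  ![-2 * X 0 ^ 5 + 9 * X 0 ^ 4 * X 1 + 14 * X 0 ^ 4 * X 2 - 7 * X 0 ^ 3 * X 1 ^ 2 - 28 * X 0 ^ 3 * X 1 * X 2 - 28 * X 0 ^ 3 * X 2 ^ 2 + 14 * X 0 ^ 2 * X 1 ^ 2 * X 2 + 36 * X 0 ^ 2 * X 1 * X 2 ^ 2 + 16 * X 0 ^ 2 * X 2 ^ 3 - 8 * X 0 * X 1 ^ 2 * X 2 ^ 2 - 16 * X 0 * X 1 * X 2 ^ 3,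
    2 * X 0 ^ 4 * X 1 - 4 * X 0 ^ 3 * X 1 ^ 2 + 4 * X 0 ^ 3 * X 1 * X 2 + 5 * X 0 ^ 2 * X 1 ^ 3 - 4 * X 0 ^ 2 * X 1 ^ 2 * X 2 - 12 * X 0 ^ 2 * X 1 * X 2 ^ 2 - 3 * X 0 * X 1 ^ 4 + 12 * X 0 * X 1 ^ 2 * X 2 ^ 2,
    X 0 ^ 4 * X 1 - X 0 ^ 3 * X 1 ^ 2]

lemma thX_mem : thX K ∈ Dv (ab K) := by
  intro i
  fin_cases i
  · refine ⟨-2 * X 0 ^ 4 + 6 * X 0 ^ 3 * X 1 + 12 * X 0 ^ 3 * X 2 - X 0 ^ 2 * X 1 ^ 2 - 18 * X 0 ^ 2 * X 1 * X 2 - 16 * X 0 ^ 2 * X 2 ^ 2 - 3 * X 0 * X 1 ^ 3 + 6 * X 0 * X 1 ^ 2 * X 2 + 16 * X 0 * X 1 * X 2 ^ 2, ?_⟩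
    simp [linForm, Fin.sum_univ_three, ab, Mb, thX]
    try ring
  · refine ⟨-2 * X 0 ^ 4 + 8 * X 0 ^ 3 * X 1 + 12 * X 0 ^ 3 * X 2 - 6 * X 0 ^ 2 * X 1 ^ 2 - 20 * X 0 ^ 2 * X 1 * X 2 - 16 * X 0 ^ 2 * X 2 ^ 2 + 8 * X 0 * X 1 ^ 2 * X 2 + 16 * X 0 * X 1 * X 2 ^ 2, ?_⟩
    simp [linForm, Fin.sum_univ_three, ab, Mb, thX]
    try ring
  · refine ⟨2 * X 0 ^ 4 - 4 * X 0 ^ 3 * X 1 + 4 * X 0 ^ 3 * X 2 + 5 * X 0 ^ 2 * X 1 ^ 2 - 4 * X 0 ^ 2 * X 1 * X 2 - 12 * X 0 ^ 2 * X 2 ^ 2 - 3 * X 0 * X 1 ^ 3 + 12 * X 0 * X 1 * X 2 ^ 2, ?_⟩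
    simp [linForm, Fin.sum_univ_three, ab, Mb, thX]
    try ring
  · refine ⟨-2 * X 0 ^ 4 + 5 * X 0 ^ 3 * X 1 + 14 * X 0 ^ 3 * X 2 + 2 * X 0 ^ 2 * X 1 ^ 2 - 18 * X 0 ^ 2 * X 1 * X 2 - 28 * X 0 ^ 2 * X 2 ^ 2 - 3 * X 0 * X 1 ^ 3 + 20 * X 0 * X 1 * X 2 ^ 2 + 16 * X 0 * X 2 ^ 3, ?_⟩
    simp [linForm, Fin.sum_univ_three, ab, Mb, thX]
    try ring
  · refine ⟨-2 * X 0 ^ 4 + 5 * X 0 ^ 3 * X 1 + 6 * X 0 ^ 3 * X 2 - 3 * X 0 ^ 2 * X 1 ^ 2 - 8 * X 0 ^ 2 * X 1 * X 2 - 4 * X 0 ^ 2 * X 2 ^ 2 + 2 * X 0 * X 1 ^ 2 * X 2 + 4 * X 0 * X 1 * X 2 ^ 2, ?_⟩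
    simp [linForm, Fin.sum_univ_three, ab, Mb, thX]
    try ring
  · refine ⟨-2 * X 0 ^ 3 * X 1 + 5 * X 0 ^ 2 * X 1 ^ 2 + 6 * X 0 ^ 2 * X 1 * X 2 - 3 * X 0 * X 1 ^ 3 - 6 * X 0 * X 1 ^ 2 * X 2, ?_⟩
    simp [linForm, Fin.sum_univ_three, ab, Mb, thX]
    try ring
  · refine ⟨-2 * X 0 ^ 4 + 3 * X 0 ^ 3 * X 1 + 10 * X 0 ^ 3 * X 2 + 2 * X 0 ^ 2 * X 1 ^ 2 - 16 * X 0 ^ 2 * X 1 * X 2 - 8 * X 0 ^ 2 * X 2 ^ 2 - 3 * X 0 * X 1 ^ 3 + 6 * X 0 * X 1 ^ 2 * X 2 + 8 * X 0 * X 1 * X 2 ^ 2, ?_⟩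
    simp [linForm, Fin.sum_univ_three, ab, Mb, thX]
    try ring
  · refine ⟨-2 * X 0 ^ 4 + 9 * X 0 ^ 3 * X 1 + 14 * X 0 ^ 3 * X 2 - 7 * X 0 ^ 2 * X 1 ^ 2 - 28 * X 0 ^ 2 * X 1 * X 2 - 28 * X 0 ^ 2 * X 2 ^ 2 + 14 * X 0 * X 1 ^ 2 * X 2 + 36 * X 0 * X 1 * X 2 ^ 2 + 16 * X 0 * X 2 ^ 3 - 8 * X 1 ^ 2 * X 2 ^ 2 - 16 * X 1 * X 2 ^ 3, ?_⟩
    simp [linForm, Fin.sum_univ_three, ab, Mb, thX]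
    try ring

lemma thX_two : thX K 2 = X 0 * bb K := by
  simp only [thX, bb, Matrix.cons_val]
  ring

noncomputable def thY : Fin 3 → R3 K :=
  ![-4 * X 0 ^ 5 + 6 * X 0 ^ 4 * X 1 + 28 * X 0 ^ 4 * X 2 + 3 * X 0 ^ 3 * X 1 ^ 2 - 38 * X 0 ^ 3 * X 1 * X 2 - 56 * X 0 ^ 3 * X 2 ^ 2 - 5 * X 0 ^ 2 * X 1 ^ 3 + 6 * X 0 ^ 2 * X 1 ^ 2 * X 2 + 64 * X 0 ^ 2 * X 1 * X 2 ^ 2 + 32 * X 0 ^ 2 * X 2 ^ 3 + 4 * X 0 * X 1 ^ 3 * X 2 - 8 * X 0 * X 1 ^ 2 * X 2 ^ 2 - 32 * X 0 * X 1 * X 2 ^ 3,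
    -6 * X 0 ^ 3 * X 1 ^ 2 + 16 * X 0 ^ 3 * X 1 * X 2 + 13 * X 0 ^ 2 * X 1 ^ 3 - 16 * X 0 ^ 2 * X 1 ^ 2 * X 2 - 28 * X 0 ^ 2 * X 1 * X 2 ^ 2 - 7 * X 0 * X 1 ^ 4 + 28 * X 0 * X 1 ^ 2 * X 2 ^ 2,
    X 0 ^ 3 * X 1 ^ 2 - X 0 ^ 2 * X 1 ^ 3]

lemma thY_mem : thY K ∈ Dv (ab K) := by
  intro i
  fin_cases i
  · refine ⟨-4 * X 0 ^ 4 + 4 * X 0 ^ 3 * X 1 + 24 * X 0 ^ 3 * X 2 + 7 * X 0 ^ 2 * X 1 ^ 2 - 30 * X 0 ^ 2 * X 1 * X 2 - 32 * X 0 ^ 2 * X 2 ^ 2 - 7 * X 0 * X 1 ^ 3 + 6 * X 0 * X 1 ^ 2 * X 2 + 32 * X 0 * X 1 * X 2 ^ 2, ?_⟩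
    simp [linForm, Fin.sum_univ_three, ab, Mb, thY]
    try ring
  · refine ⟨-4 * X 0 ^ 4 + 6 * X 0 ^ 3 * X 1 + 24 * X 0 ^ 3 * X 2 + 2 * X 0 ^ 2 * X 1 ^ 2 - 32 * X 0 ^ 2 * X 1 * X 2 - 32 * X 0 ^ 2 * X 2 ^ 2 - 4 * X 0 * X 1 ^ 3 + 8 * X 0 * X 1 ^ 2 * X 2 + 32 * X 0 * X 1 * X 2 ^ 2, ?_⟩
    simp [linForm, Fin.sum_univ_three, ab, Mb, thY]
    try ring
  · refine ⟨-6 * X 0 ^ 3 * X 1 + 16 * X 0 ^ 3 * X 2 + 13 * X 0 ^ 2 * X 1 ^ 2 - 16 * X 0 ^ 2 * X 1 * X 2 - 28 * X 0 ^ 2 * X 2 ^ 2 - 7 * X 0 * X 1 ^ 3 + 28 * X 0 * X 1 * X 2 ^ 2, ?_⟩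
    simp [linForm, Fin.sum_univ_three, ab, Mb, thY]
    try ring
  · refine ⟨-4 * X 0 ^ 4 + 2 * X 0 ^ 3 * X 1 + 28 * X 0 ^ 3 * X 2 + 11 * X 0 ^ 2 * X 1 ^ 2 - 26 * X 0 ^ 2 * X 1 * X 2 - 56 * X 0 ^ 2 * X 2 ^ 2 - 7 * X 0 * X 1 ^ 3 - 4 * X 0 * X 1 ^ 2 * X 2 + 36 * X 0 * X 1 * X 2 ^ 2 + 32 * X 0 * X 2 ^ 3, ?_⟩
    simp [linForm, Fin.sum_univ_three, ab, Mb, thY]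
    try ring
  · refine ⟨-4 * X 0 ^ 4 + 6 * X 0 ^ 3 * X 1 + 12 * X 0 ^ 3 * X 2 - X 0 ^ 2 * X 1 ^ 2 - 14 * X 0 ^ 2 * X 1 * X 2 - 8 * X 0 ^ 2 * X 2 ^ 2 - X 0 * X 1 ^ 3 + 2 * X 0 * X 1 ^ 2 * X 2 + 8 * X 0 * X 1 * X 2 ^ 2, ?_⟩
    simp [linForm, Fin.sum_univ_three, ab, Mb, thY]
    try ring
  · refine ⟨-8 * X 0 ^ 3 * X 1 + 15 * X 0 ^ 2 * X 1 ^ 2 + 14 * X 0 ^ 2 * X 1 * X 2 - 7 * X 0 * X 1 ^ 3 - 14 * X 0 * X 1 ^ 2 * X 2, ?_⟩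
    simp [linForm, Fin.sum_univ_three, ab, Mb, thY]
    try ring
  · refine ⟨-4 * X 0 ^ 4 + 2 * X 0 ^ 3 * X 1 + 20 * X 0 ^ 3 * X 2 + 9 * X 0 ^ 2 * X 1 ^ 2 - 30 * X 0 ^ 2 * X 1 * X 2 - 16 * X 0 ^ 2 * X 2 ^ 2 - 7 * X 0 * X 1 ^ 3 + 10 * X 0 * X 1 ^ 2 * X 2 + 16 * X 0 * X 1 * X 2 ^ 2, ?_⟩
    simp [linForm, Fin.sum_univ_three, ab, Mb, thY]
    try ring
  · refine ⟨-4 * X 0 ^ 4 + 6 * X 0 ^ 3 * X 1 + 28 * X 0 ^ 3 * X 2 + 3 * X 0 ^ 2 * X 1 ^ 2 - 38 * X 0 ^ 2 * X 1 * X 2 - 56 * X 0 ^ 2 * X 2 ^ 2 - 5 * X 0 * X 1 ^ 3 + 6 * X 0 * X 1 ^ 2 * X 2 + 64 * X 0 * X 1 * X 2 ^ 2 + 32 * X 0 * X 2 ^ 3 + 4 * X 1 ^ 3 * X 2 - 8 * X 1 ^ 2 * X 2 ^ 2 - 32 * X 1 * X 2 ^ 3, ?_⟩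
    simp [linForm, Fin.sum_univ_three, ab, Mb, thY]
    try ring

lemma thY_two : thY K 2 = X 1 * bb K := by
  simp only [thY, bb, Matrix.cons_val]
  ring

/-- dual certificate: line indices -/
def cidx : Fin 32 → Fin 8 := ![6, 5, 7, 2, 3, 2, 0, 7, 5, 6, 7, 0, 1, 2, 0, 3, 7, 5, 4, 4, 6, 6, 2, 4, 1, 1, 0, 6, 3, 4, 3, 2]

/-- dual certificate: points -/
def cpt : Fin 32 → Fin 3 → ℤ := ![![0, -2, 1], ![-2, -2, -1], ![0, -1, 2], ![-1, 0, -1], ![-1, -1, -1], ![0, 0, -1], ![0, -2, 1], ![0, -2, -1], ![-2, 2, 1], ![-3, 1, -2], ![0, -1, -1], ![-1, 0, -1], ![-2, -1, -2], ![-1, 0, 0], ![-1, 2, -2], ![-2, -2, -1], ![0, -1, -2], ![-1, -2, -1], ![-4, -3, -1], ![-4, -2, -1], ![-1, -1, 0], ![-1, 1, -1], ![-2, 0, 1], ![-4, 1,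 -1], ![-2, 1, -2], ![-1, -1, -1], ![-1, -2, 0], ![-1, -3, 1], ![-1, -1, 0], ![0, -1, 0], ![-1, -1, 2], ![-1, 0, 1]]

/-- dual certificate: coefficients -/
def cco : Fin 32 → ℤ := ![764, 75, 24, -5040, 1200, -180, -354, -24, -5, 76, 1320, -6840, 840, 5760, 60, -84, -156, 160, -30, 20, 4260, -1540, -180, -10, 200, -5120, 540, -156, -2520, -2220, 24, 720]

/-- evaluation point -/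
def cQ : Fin 3 → ℤ := ![1, -1, 0]

lemma cert_pts : ∀ t : Fin 32, Mb (cidx t) 0 * cpt t 0 + Mb (cidx t) 1 * cpt t 1 +
    Mb (cidx t) 2 * cpt t 2 = 0 := by decide +kernel

lemma cert_mon : ∀ j : Fin 3, ∀ m0 m1 m2 : Fin 5, (m0 : ℕ) + m1 + m2 = 4 →
    (∑ t : Fin 32, cco t * (Mb (cidx t) j * (cpt t 0 ^ (m0 : ℕ) * cpt t 1 ^ (m1 : ℕ) * cpt t 2 ^ (m2 : ℕ)))) =
      (if j = 2 then 1440 else 0) * (cQ 0 ^ (m0 : ℕ) * cQ 1 ^ (m1 : ℕ) * cQ 2 ^ (m2 : ℕ)) := by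
  decide +kernel

end Pool.Agent.H158R3
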