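import Mathlib
import Pool.Agent.H158R3.Cert

set_option autoImplicit false
set_option linter.unusedSectionVars false
set_option linter.unusedSimpArgs false

open MvPolynomial

namespace Pool.Agent.H158R3

variable {K : Type} [Field K]

/-- `X i - g` divides `p - p(X_i := g)`. -/
lemma X_sub_dvd (i : Fin 3) (g : R3 K) (p : R3 K) :
    (X i - g : R3 K) ∣ p - aeval (Function.update (X : Fin 3 → R3 K) i g) p := by
  induction p using MvPolynomial.induction_on with
  | C a => simp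
  | add p q hp hq =>
    rw [map_add]
    have := dvd_add hp hq
    convert this using 1
    ring
  | mul_X p j hp =>
    rw [map_mul, aeval_X]
    by_cases h : j = i
    · subst h
      rw [Function.update_self]
      obtain ⟨c, hc⟩ := hp
      refine ⟨c * X j + aeval (Function.update (X : Fin 3 → R3 K) j g) p, ?_⟩
      linear_combination (X j) * hc
    · rw [Function.update_of_ne h]
      obtain ⟨c, hc⟩ := hp
      refine ⟨c * X j, ?_⟩
      linear_combination (X j) * hc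

/-- specialisation `z = 0` -/
noncomputable def sp0 : R3 K →ₐ[K] R3 K := aeval (Function.update (X : Fin 3 → R3 K) 2 0)

/-- specialisation `x = y` -/
noncomputable def spxy : R3 K →ₐ[K] R3 K := aeval (Function.update (X : Fin 3 → R3 K) 0 (X 1))

lemma z_dvd_sub (p : R3 K) : zz K ∣ p - sp0 p := by
  have := X_sub_dvd 2 (0 : R3 K) p
  simpa [sp0] using this

lemma sp0_z : sp0 (X 2 : R3 K) = 0 := by simp [sp0]
lemma sp0_x : sp0 (X 0 : R3 K) = X 0 := by simp [sp0]
lemma sp0_y : sp0 (X 1 : R3 K) = X 1 := by simp [sp0]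

lemma spxy_x : spxy (X 0 : R3 K) = X 1 := by simp [spxy]
lemma spxy_y : spxy (X 1 : R3 K) = X 1 := by simp [spxy]

lemma xy_dvd_iff (p : R3 K) (h : spxy p = 0) : (X 0 - X 1 : R3 K) ∣ p := by
  have := X_sub_dvd 0 (X 1 : R3 K) p
  rw [← spxy, h, sub_zero] at this
  exact this

lemma bb_dvd (u : R3 K) (h1 : X 0 ^ 2 ∣ u) (h2 : X 1 ∣ u) (h3 : (X 0 - X 1 : R3 K) ∣ u) :
    bb K ∣ u := by
  obtain ⟨v, rfl⟩ := h1
  have hy : Prime (X 1 : R3 K) := X_prime
  have hy2 : X 1 ∣ v := by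
    rcases hy.dvd_or_dvd h2 with h | h
    · exfalso
      have h4 := hy.dvd_of_dvd_pow h
      rw [X_dvd_X] at h4
      simp at h4
    · exact h
  obtain ⟨w, rfl⟩ := hy2
  obtain ⟨c, hc⟩ := h3
  have h5 : spxy (X 0 ^ 2 * (X 1 * w) : R3 K) = 0 := by
    rw [hc, map_mul, map_sub, spxy_x, spxy_y, sub_self, zero_mul]
  have h6 : spxy w = 0 := by
    rw [map_mul, map_pow, map_mul, spxy_x, spxy_y] at h5
    have hx : (X 1 : R3 K) ≠ 0 := hy.ne_zero
    rcases mul_eq_zero.1 h5 with h | h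
    · exact absurd (pow_eq_zero_iff (by norm_num) |>.1 h) hx
    · exact (mul_eq_zero.1 h).resolve_left hx
  obtain ⟨e, he⟩ := xy_dvd_iff w h6
  exact ⟨e, by rw [he, bb]; ring⟩

variable [CharZero K]

lemma z_not_dvd_bb : ¬ zz K ∣ bb K := by
  rintro ⟨c, hc⟩
  have h := congrArg (aeval (![2, 1, 0] : Fin 3 → K)) hc
  simp [bb] at h
  norm_num at h

lemma dvd_of_dvd_nat_mul (k : ℕ) (hk : k ≠ 0) (d u : R3 K) (h : d ∣ (k : R3 K) * u) : d ∣ u := by
  obtain ⟨c, hc⟩ := h
  refine ⟨C ((k : K)⁻¹) * c, ?_⟩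
  have h1 : (C ((k : K)⁻¹) : R3 K) * (k : R3 K) = 1 := by
    have : (k : R3 K) = C (k : K) := by simp
    rw [this, ← C_mul, inv_mul_cancel₀ (by exact_mod_cast hk), C_1]
  calc u = (C ((k : K)⁻¹) * (k : R3 K)) * u := by rw [h1, one_mul]
    _ = C ((k : K)⁻¹) * ((k : R3 K) * u) := by ring
    _ = d * (C ((k : K)⁻¹) * c) := by rw [hc]; ring

lemma good_h1 (θ : Dv (ag K)) : θ.1 2 ∈ Ideal.span {zz K, bb K} := by
  have hx : Prime (X 0 : R3 K) := X_prime
  have two_ne : (2 : R3 K) ≠ 0 := by norm_num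
  obtain ⟨p, hp⟩ : (X 0 : R3 K) ∣ θ.1 0 := by
    have := θ.2 7
    simpa [linForm, Fin.sum_univ_three, ag, Mg] using this
  obtain ⟨q, hq⟩ : (X 0 - X 2 : R3 K) ∣ θ.1 0 - θ.1 2 := by
    have := θ.2 4
    simpa [linForm, Fin.sum_univ_three, ag, Mg, sub_eq_add_neg] using this
  obtain ⟨r, hr⟩ : (X 0 + 2 * X 2 : R3 K) ∣ θ.1 0 + 2 * θ.1 2 := by
    have := θ.2 1
    simpa [linForm, Fin.sum_univ_three, ag, Mg] using this
  obtain ⟨s, hs⟩ : (X 1 : R3 K) ∣ θ.1 1 := by
    have := θ.2 2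
    simpa [linForm, Fin.sum_univ_three, ag, Mg] using this
  obtain ⟨t, ht⟩ : (X 1 - 2 * X 2 : R3 K) ∣ θ.1 1 - 2 * θ.1 2 := by
    have := θ.2 5
    simpa [linForm, Fin.sum_univ_three, ag, Mg, sub_eq_add_neg] using this
  obtain ⟨v, hv⟩ : (X 0 - X 1 : R3 K) ∣ θ.1 0 - θ.1 1 := by
    have := θ.2 3
    simpa [linForm, Fin.sum_univ_three, ag, Mg, sub_eq_add_neg] using this
  obtain ⟨w, hw⟩ : (X 0 - X 1 + X 2 : R3 K) ∣ θ.1 0 - θ.1 1 + θ.1 2 := by
    have := θ.2 6
    simpa [linForm, Fin.sum_univ_three, ag, Mg, sub_eq_add_neg] using this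
  -- the pencil at `x = z = 0`
  have e1 : X 0 * (3 * p - 2 * q - r) = 2 * (X 2 * (r - q)) := by
    linear_combination -3 * hp + 2 * hq + hr
  have e2 : (X 0 : R3 K) ∣ ((2 : ℕ) : R3 K) * (X 2 * (r - q)) := by
    refine ⟨3 * p - 2 * q - r, ?_⟩
    push_cast
    linear_combination -e1
  have e3 : (X 0 : R3 K) ∣ r - q := by
    rcases hx.dvd_or_dvd (dvd_of_dvd_nat_mul 2 (by norm_num) _ _ e2) with h | h
    · exfalso
      rw [X_dvd_X] at h
      simp at h
    · exact h
  obtain ⟨c, hc⟩ := e3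
  have e4 : 3 * p - 2 * q - r = 2 * (X 2 * c) := by
    apply mul_left_cancel₀ hx.ne_zero
    linear_combination e1 + 2 * X 2 * hc
  have e5 : 3 * θ.1 2 = X 0 ^ 2 * c + X 2 * (2 * X 0 * c + 3 * q) := by
    linear_combination 3 * hp - 3 * hq + X 0 * e4 + X 0 * hc
  have u1 : X 0 ^ 2 ∣ sp0 (θ.1 2) := by
    apply dvd_of_dvd_nat_mul 3 (by norm_num)
    have := congrArg (sp0 (K := K)) e5
    simp only [map_mul, map_add, map_pow, sp0_x, sp0_z, zero_mul, add_zero, map_ofNat] at this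
    exact ⟨sp0 c, by push_cast; exact this⟩
  have u2 : X 1 ∣ sp0 (θ.1 2) := by
    apply dvd_of_dvd_nat_mul 2 (by norm_num)
    have e6 : 2 * θ.1 2 = X 1 * (s - t) + X 2 * (2 * t) := by
      linear_combination hs - ht
    have := congrArg (sp0 (K := K)) e6
    simp only [map_mul, map_add, map_sub, map_pow, sp0_y, sp0_z, zero_mul, add_zero, map_ofNat] at this
    exact ⟨_, by push_cast; exact this⟩
  have u3 : (X 0 - X 1 : R3 K) ∣ sp0 (θ.1 2) := by
    have e7 : θ.1 2 = (X 0 - X 1) * (w - v) + X 2 * w := by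
      linear_combination hw - hv
    have := congrArg (sp0 (K := K)) e7
    simp only [map_mul, map_add, map_sub, map_pow, sp0_x, sp0_y, sp0_z, zero_mul, add_zero] at this
    exact ⟨_, this⟩
  obtain ⟨d, hd⟩ := bb_dvd _ u1 u2 u3
  obtain ⟨f, hf⟩ := z_dvd_sub (θ.1 2)
  rw [Ideal.mem_span_pair]
  refine ⟨f, d, ?_⟩
  linear_combination -hf - hd

lemma good_h2 : ∃ θ : Dv (ag K), θ.1 2 = bb K := by
  refine ⟨⟨(C (3⁻¹ : K) : R3 K) • thG K, Submodule.smul_mem _ _ (thG_mem K)⟩, ?_⟩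
  show C (3⁻¹ : K) * thG K 2 = bb K
  rw [thG_two]
  have h3 : (3 : R3 K) = C (3 : K) := (map_ofNat C 3).symm
  rw [h3, ← mul_assoc, ← C_mul, inv_mul_cancel₀ (by norm_num), C_1, one_mul]

lemma ag_ne (i : Fin 8) : ag K i ≠ 0 := by
  intro h
  have h0 := congrFun h 0
  have h1 := congrFun h 1
  simp only [ag, Pi.zero_apply, Int.cast_eq_zero] at h0 h1
  clear h
  revert h0 h1
  revert i
  decide

lemma ab_ne (i : Fin 8) : ab K i ≠ 0 := by
  intro h
  have h0 := congrFun h 0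
  have h1 := congrFun h 1
  simp only [ab, Pi.zero_apply, Int.cast_eq_zero] at h0 h1
  clear h
  revert h0 h1
  revert i
  decide

theorem pd_ag : PdLT (S4 K) (Dv (gad (ag K))) 2 :=
  pd_good (ag K) ag_ne (bb K) z_not_dvd_bb good_h1 good_h2

/-- value at an integer point of the degree four part -/
noncomputable def ev4 (P : Fin 3 → ℤ) : R3 K →ₗ[K] K :=
  (aeval (fun i => (P i : K))).toLinearMap.comp (homogeneousComponent 4)

lemma ev4_of_hom (P : Fin 3 → ℤ) (p : R3 K) (k : ℕ) (hp : p.IsHomogeneous k) :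
    ev4 P p = if k = 4 then aeval (fun i => (P i : K)) p else 0 := by
  show aeval (fun i => (P i : K)) (homogeneousComponent 4 p) = _
  rw [homogeneousComponent_of_mem ((mem_homogeneousSubmodule k p).2 hp)]
  by_cases h : k = 4
  · simp [h]
  · simp [h, Ne.symm h]

lemma ev4_monomial (P : Fin 3 → ℤ) (m : Fin 3 →₀ ℕ) :
    ev4 (K := K) P (monomial m 1) =
      if m 0 + m 1 + m 2 = 4 then ((P 0 ^ m 0 * P 1 ^ m 1 * P 2 ^ m 2 : ℤ) : K) else 0 := by
  have hm : m.degree = m 0 + m 1 + m 2 := by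
    rw [Finsupp.degree_eq_sum, Fin.sum_univ_three]
  rw [ev4_of_hom P _ (m 0 + m 1 + m 2) (isHomogeneous_monomial 1 hm)]
  congr 1
  rw [aeval_monomial, Finsupp.prod_fintype _ _ (by simp), Fin.prod_univ_three]
  simp

lemma linForm_hom {l : ℕ} (v : Fin l → K) : (linForm v).IsHomogeneous 1 := by
  unfold linForm
  apply IsHomogeneous.sum
  intro i _
  have := (isHomogeneous_C (Fin l) (v i)).mul (isHomogeneous_X K i)
  simpa using this

lemma ev4_mul (P : Fin 3 → ℤ) (v : Fin 3 → K) (hv : ∑ j, v j * (P j : K) = 0) (q : R3 K) :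
    ev4 P (linForm v * q) = 0 := by
  have key : (ev4 (K := K) P).comp (LinearMap.mulLeft K (linForm v)) = 0 := by
    refine MvPolynomial.linearMap_ext fun m => ?_
    apply LinearMap.ext_ring
    rw [LinearMap.comp_apply, LinearMap.comp_apply, LinearMap.mulLeft_apply, LinearMap.zero_comp,
      LinearMap.zero_apply]
    rw [ev4_of_hom P _ (1 + m.degree) ((linForm_hom v).mul (isHomogeneous_monomial 1 rfl))]
    have h0 : aeval (fun i => (P i : K)) (linForm v) = 0 := by
      simp only [linForm, map_sum, map_mul, aeval_X, algHom_C, Algebra.algebraMap_self, RingHom.id_apply]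
      exact hv
    rw [map_mul, h0, zero_mul, ite_self]
  exact LinearMap.congr_fun key q

lemma cert_lin (j : Fin 3) (p : R3 K) :
    ∑ t : Fin 32, (cco t : K) * ((Mb (cidx t) j : K) * ev4 (cpt t) p) =
      (if j = 2 then 1440 else 0) * ev4 cQ p := by
  have key : (∑ t : Fin 32, ((cco t : K) * (Mb (cidx t) j : K)) • ev4 (K := K) (cpt t)) =
      ((if j = 2 then 1440 else 0 : K)) • ev4 (K := K) cQ := by
    refine MvPolynomial.linearMap_ext fun m => ?_
    apply LinearMap.ext_ring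
    rw [LinearMap.comp_apply, LinearMap.comp_apply]
    simp only [LinearMap.sum_apply, LinearMap.smul_apply, smul_eq_mul]
    simp only [ev4_monomial]
    by_cases hm : m 0 + m 1 + m 2 = 4
    · have h := cert_mon j ⟨m 0, by omega⟩ ⟨m 1, by omega⟩ ⟨m 2, by omega⟩ hm
      simp only [hm, if_true]
      have h2 := congrArg (Int.cast : ℤ → K) h
      push_cast at h2 ⊢
      rw [← h2]
      refine Finset.sum_congr rfl fun t _ => by ring
    · simp [hm]
  have := LinearMap.congr_fun key p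
  simp only [LinearMap.sum_apply, LinearMap.smul_apply, smul_eq_mul] at this
  rw [← this]
  exact Finset.sum_congr rfl fun t _ => by ring

lemma bad_h0 (θ : Dv (ab K)) : ¬ zz K ∣ bb K + θ.1 2 := by
  rintro ⟨c, hc⟩
  -- all the functionals vanish on `θ`
  have h1 : ∀ t : Fin 32, ∑ j, (Mb (cidx t) j : K) * ev4 (cpt t) (θ.1 j) = 0 := by
    intro t
    obtain ⟨q, hq⟩ := θ.2 (cidx t)
    have h2 : ev4 (cpt t) (∑ j, C (ab K (cidx t) j) * θ.1 j) = 0 := by
      rw [hq]
      apply ev4_mul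
      have := cert_pts t
      have h3 := congrArg (Int.cast : ℤ → K) this
      push_cast at h3
      rw [Fin.sum_univ_three]
      exact h3
    rw [map_sum] at h2
    rw [← h2]
    refine Finset.sum_congr rfl fun j _ => ?_
    rw [C_mul', map_smul, smul_eq_mul]
    rfl
  have h4 : ev4 cQ (θ.1 2) = 0 := by
    have h5 : ∑ j : Fin 3, ∑ t : Fin 32, (cco t : K) * ((Mb (cidx t) j : K) * ev4 (cpt t) (θ.1 j)) = 0 := by
      rw [Finset.sum_comm]
      apply Finset.sum_eq_zero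
      intro t _
      rw [← Finset.mul_sum, h1 t, mul_zero]
    simp only [cert_lin] at h5
    rw [Fin.sum_univ_three] at h5
    simpa using h5
  have h6 : ev4 (K := K) cQ (bb K + θ.1 2) = 0 := by
    rw [hc]
    have : (zz K : R3 K) = linForm ![0, 0, 1] := by simp [linForm, Fin.sum_univ_three]
    rw [this]
    apply ev4_mul
    simp [Fin.sum_univ_three, cQ]
  have h7 : ev4 (K := K) cQ (bb K) = -2 := by
    have hh : (bb K).IsHomogeneous 4 := by
      unfold bb
      have hx := isHomogeneous_X K (0 : Fin 3)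
      have hy := isHomogeneous_X K (1 : Fin 3)
      exact ((hx.pow 2).mul hy).mul (hx.sub hy)
    rw [ev4_of_hom cQ _ 4 hh]
    simp [bb, cQ]
    norm_num
  rw [map_add, h7, h4] at h6
  norm_num at h6

theorem pd_ab : ¬ PdLT (S4 K) (Dv (gad (ab K))) 2 :=
  pd_bad (ab K) (bb K) bad_h0 ⟨⟨thX K, thX_mem K⟩, thX_two K⟩ ⟨⟨thY K, thY_mem K⟩, thY_two K⟩ ab_ne

end Pool.Agent.H158R3
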