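import Mathlib

set_option autoImplicit false
set_option linter.unusedSectionVars false

namespace Pool.Agent.H158R3

variable {K : Type} [Field K] {l n : ℕ}

/-- the hyperplane `{x | ∑ j, v j * x j = 0}` -/
def hyp (v : Fin l → K) : Submodule K (Fin l → K) where
  carrier := {x | ∑ j, v j * x j = 0}
  add_mem' := by
    intro x y hx hy
    simp only [Set.mem_ofPred_eq, Pi.add_apply, mul_add, Finset.sum_add_distrib] at hx hy ⊢
    rw [hx, hy, add_zero]
  zero_mem' := by simp
  smul_mem' := by
    intro c x hx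
    simp only [Set.mem_ofPred_eq, Pi.smul_apply, smul_eq_mul] at hx ⊢
    have : ∑ j, v j * (c * x j) = c * ∑ j, v j * x j := by
      rw [Finset.mul_sum]; exact Finset.sum_congr rfl fun j _ => by ring
    rw [this, hx, mul_zero]

/-- all intersections of the hyperplanes -/
def LL (a : Fin n → Fin l → K) : Set (Submodule K (Fin l → K)) :=
  {W | ∃ s : Set (Fin n), W = ⨅ i ∈ s, hyp (a i)}

/-- index set of hyperplanes containing `W` -/
def idx (a : Fin n → Fin l → K) (W : Submodule K (Fin l → K)) : Set (Fin n) := {i | W ≤ hyp (a i)}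

lemma eq_iInf_idx {a : Fin n → Fin l → K} {W : Submodule K (Fin l → K)} (hW : W ∈ LL a) :
    W = ⨅ i ∈ idx a W, hyp (a i) := by
  apply le_antisymm
  · exact le_iInf₂ fun i hi => hi
  · obtain ⟨s, rfl⟩ := hW
    refine le_iInf₂ fun i hi => ?_
    have : i ∈ idx a (⨅ i ∈ s, hyp (a i)) := by
      show (⨅ i ∈ s, hyp (a i)) ≤ hyp (a i)
      exact iInf₂_le i hi
    exact iInf₂_le i this

/-- transfer -/
def tr (a b : Fin n → Fin l → K) (W : LL a) : LL b := ⟨⨅ i ∈ idx a W.1, hyp (b i), _, rfl⟩

lemma idx_tr {a b : Fin n → Fin l → K}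
    (h : ∀ (s : Set (Fin n)) (i : Fin n), ((⨅ j ∈ s, hyp (a j)) ≤ hyp (a i)) ↔
      ((⨅ j ∈ s, hyp (b j)) ≤ hyp (b i))) (W : LL a) : idx b (tr a b W).1 = idx a W.1 := by
  ext i
  show (⨅ j ∈ idx a W.1, hyp (b j)) ≤ hyp (b i) ↔ W.1 ≤ hyp (a i)
  rw [← h, ← eq_iInf_idx W.2]

lemma le_iff_idx {a : Fin n → Fin l → K} (W W' : LL a) : W ≤ W' ↔ idx a W'.1 ⊆ idx a W.1 := by
  constructor
  · intro h i hi
    have h1 : W'.1 ≤ hyp (a i) := hi
    show W.1 ≤ hyp (a i)
    exact le_trans h h1
  · intro h
    show W.1 ≤ W'.1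
    rw [eq_iInf_idx W.2, eq_iInf_idx W'.2]
    exact le_iInf₂ fun i hi => iInf₂_le i (h hi)

lemma lattice_iso {a b : Fin n → Fin l → K}
    (h : ∀ (s : Set (Fin n)) (i : Fin n), ((⨅ j ∈ s, hyp (a j)) ≤ hyp (a i)) ↔
      ((⨅ j ∈ s, hyp (b j)) ≤ hyp (b i))) : Nonempty (LL a ≃o LL b) := by
  have h' := fun s i => (h s i).symm
  refine ⟨{ toFun := tr a b, invFun := tr b a, left_inv := ?_, right_inv := ?_, map_rel_iff' := ?_ }⟩
  · intro W
    apply Subtype.ext
    show (⨅ i ∈ idx b (tr a b W).1, hyp (a i)) = W.1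
    rw [idx_tr h]
    exact (eq_iInf_idx W.2).symm
  · intro W
    apply Subtype.ext
    show (⨅ i ∈ idx a (tr b a W).1, hyp (b i)) = W.1
    rw [idx_tr h']
    exact (eq_iInf_idx W.2).symm
  · intro W W'
    show tr a b W ≤ tr a b W' ↔ W ≤ W'
    rw [le_iff_idx, le_iff_idx, idx_tr h, idx_tr h]

/-- the functional `x ↦ ∑ v j x j` -/
noncomputable def fn (v : Fin l → K) : (Fin l → K) →ₗ[K] K :=
  (LinearMap.lsum K (fun _ : Fin l => K) K) (fun j => v j • LinearMap.id)

lemma fn_apply (v x : Fin l → K) : fn v x = ∑ j, v j * x j := by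
  simp [fn]

lemma ker_fn (v : Fin l → K) : LinearMap.ker (fn v) = hyp v := by
  ext x
  rw [LinearMap.mem_ker, fn_apply]
  rfl

lemma fn_linear (v : Fin l → K) : fn v = ∑ j, v j • fn (Pi.single j (1:K)) := by
  apply LinearMap.ext
  intro x
  rw [fn_apply, LinearMap.sum_apply]
  refine Finset.sum_congr rfl fun j _ => ?_
  rw [LinearMap.smul_apply, fn_apply]
  simp [Pi.single_apply]

/-- `fn` as a linear map -/
noncomputable def fnL : (Fin l → K) →ₗ[K] ((Fin l → K) →ₗ[K] K) where
  toFun := fn
  map_add' v w := by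
    apply LinearMap.ext; intro x
    simp only [fn_apply, LinearMap.add_apply, Pi.add_apply, add_mul, Finset.sum_add_distrib]
  map_smul' c v := by
    apply LinearMap.ext; intro x
    simp only [fn_apply, LinearMap.smul_apply, Pi.smul_apply, smul_eq_mul, RingHom.id_apply,
      Finset.mul_sum]
    exact Finset.sum_congr rfl fun j _ => by ring

lemma fnL_inj : Function.Injective (fnL (K := K) (l := l)) := by
  intro v w h
  ext j
  have := LinearMap.congr_fun h (Pi.single j 1)
  change fn v _ = fn w _ at this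
  rw [fn_apply, fn_apply] at this
  simpa [Pi.single_apply] using this

lemma le_hyp_iff (a : Fin n → Fin l → K) (s : Set (Fin n)) (i : Fin n) :
    ((⨅ j ∈ s, hyp (a j)) ≤ hyp (a i)) ↔ a i ∈ Submodule.span K (a '' s) := by
  constructor
  · intro h
    have h2 : ⨅ j : s, LinearMap.ker (fn (a j)) ≤ LinearMap.ker (fn (a i)) := by
      rw [ker_fn]
      refine le_trans (le_of_eq ?_) h
      rw [iInf_subtype']
      exact iInf_congr fun j => ker_fn _
    have h3 := mem_span_of_iInf_ker_le_ker h2
    have h4 : fnL (a i) ∈ (Submodule.span K (a '' s)).map fnL := by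
      rw [Submodule.map_span]
      have h5 : fnL '' (a '' s) = Set.range (fun i : s => fn (a i)) := by
        ext f
        constructor
        · rintro ⟨_, ⟨j, hj, rfl⟩, rfl⟩
          exact ⟨⟨j, hj⟩, rfl⟩
        · rintro ⟨⟨j, hj⟩, rfl⟩
          exact ⟨_, ⟨j, hj, rfl⟩, rfl⟩
      rw [h5]
      exact h3
    obtain ⟨v, hv, hv2⟩ := h4
    rwa [← fnL_inj hv2]
  · intro h x hx
    have : ∀ v ∈ Submodule.span K (a '' s), x ∈ hyp v := by
      intro v hv
      induction hv using Submodule.span_induction with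
      | mem v hv =>
        obtain ⟨j, hj, rfl⟩ := hv
        have := (Submodule.mem_iInf _).1 hx j
        exact (Submodule.mem_iInf _).1 this hj
      | zero => show ∑ j, (0 : Fin l → K) j * x j = 0; simp
      | add v w _ _ hv hw =>
        show ∑ j, (v + w) j * x j = 0
        have h1 : ∑ j, v j * x j = 0 := hv
        have h2 : ∑ j, w j * x j = 0 := hw
        simp only [Pi.add_apply, add_mul, Finset.sum_add_distrib, h1, h2, add_zero]
      | smul c v _ hv =>
        show ∑ j, (c • v) j * x j = 0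
        have h1 : ∑ j, v j * x j = 0 := hv
        simp only [Pi.smul_apply, smul_eq_mul, mul_assoc, ← Finset.mul_sum, h1, mul_zero]
    exact this _ h

lemma span_iff_of_indep {a b : Fin n → Fin l → K}
    (h : ∀ t : Set (Fin n), LinearIndepOn K a t ↔ LinearIndepOn K b t) (s : Set (Fin n)) (i : Fin n) :
    a i ∈ Submodule.span K (a '' s) → b i ∈ Submodule.span K (b '' s) := by
  intro hi
  obtain ⟨t, hts, -, hspan, ht⟩ := exists_linearIndepOn_extension (K := K) (v := b)
    (linearIndepOn_empty K b) (Set.empty_subset s)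
  have hta := (h t).2 ht
  have h1 : a '' s ⊆ Submodule.span K (a '' t) := by
    rintro _ ⟨j, hj, rfl⟩
    rw [SetLike.mem_coe, hta.mem_span_iff, h]
    have := hspan ⟨j, hj, rfl⟩
    rwa [SetLike.mem_coe, ht.mem_span_iff] at this
  have h2 : a i ∈ Submodule.span K (a '' t) := (Submodule.span_le.2 h1) hi
  rw [hta.mem_span_iff, h, ← ht.mem_span_iff] at h2
  exact Submodule.span_mono (Set.image_mono hts) h2

lemma lattice_iso_of_indep {a b : Fin n → Fin l → K}
    (h : ∀ t : Set (Fin n), LinearIndepOn K a t ↔ LinearIndepOn K b t) :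
    Nonempty (LL a ≃o LL b) := by
  apply lattice_iso
  intro s i
  rw [le_hyp_iff, le_hyp_iff]
  exact ⟨span_iff_of_indep h s i, span_iff_of_indep (fun t => (h t).symm) s i⟩

/-- the minors condition -/
lemma indep_of_minors {a b : Fin n → Fin l → K} (hspan : Submodule.span K (Set.range a) = ⊤)
    (h : ∀ e : Fin l ↪o Fin n, Matrix.det (Matrix.of (fun i => a (e i))) ≠ 0 →
      Matrix.det (Matrix.of (fun i => b (e i))) ≠ 0) (t : Set (Fin n)) :
    LinearIndepOn K a t → LinearIndepOn K b t := by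
  classical
  intro ht
  obtain ⟨u, -, htu, hsp, hu⟩ := exists_linearIndepOn_extension (K := K) (v := a) ht
    (Set.subset_univ t)
  rw [Set.image_univ] at hsp
  have hu1 : Submodule.span K (a '' u) = ⊤ := by
    rw [eq_top_iff, ← hspan]
    exact Submodule.span_le.2 hsp
  have hcard : Fintype.card u = l := by
    have h1 := finrank_span_eq_card hu
    have h2 : Set.range (fun x : u => a x) = a '' u := by
      ext x; simp
    rw [h2, hu1, finrank_top, Module.finrank_fin_fun] at h1
    exact h1.symm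
  let uf : Finset (Fin n) := u.toFinset
  have hcard2 : uf.card = l := by rw [Set.toFinset_card, hcard]
  let e : Fin l ↪o Fin n := uf.orderEmbOfFin hcard2
  have he : Set.range e = u := by
    rw [Finset.range_orderEmbOfFin]; simp [uf]
  have hdet : ∀ c : Fin n → Fin l → K, LinearIndepOn K c u ↔
      Matrix.det (Matrix.of (fun i => c (e i))) ≠ 0 := by
    intro c
    rw [← isUnit_iff_ne_zero, ← Matrix.isUnit_iff_isUnit_det,
      ← Matrix.linearIndependent_rows_iff_isUnit]
    have : (Matrix.of (fun i => c (e i))).row = fun i => c (e i) := rfl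
    rw [this, ← he]
    exact linearIndepOn_range_iff e.injective c
  exact ((hdet b).2 (h e ((hdet a).1 hu))).mono htu

end Pool.Agent.H158R3
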